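import Pool.Agent.H8.UGC.Stm

/-!
# Block C, module C8a: polynomial functions on forms are polynomials in the coefficients
-/

set_option autoImplicit false

open MvPolynomial

namespace Pool.Agent.H8.UGC

open Pool.Agent.H47.KB

/-- the exponents of degree `d` -/
theorem exists_cof {n d : ℕ} (f : Sd n d → ℂ) (hf : IsPoly f) :
    ∃ P : Cof n, ∀ F : Sd n d, f F = val P F.1 := by
  classical
  let A : Subalgebra ℂ (Sd n d → ℂ) :=
    { carrier := {f | ∃ P : Cof n, ∀ F : Sd n d, f F = val P F.1}
      mul_mem' := by
        rintro f g ⟨P, hP⟩ ⟨Q, hQ⟩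
        exact ⟨P * Q, fun F => by rw [Pi.mul_apply, hP, hQ, val, val, val, map_mul]⟩
      add_mem' := by
        rintro f g ⟨P, hP⟩ ⟨Q, hQ⟩
        exact ⟨P + Q, fun F => by rw [Pi.add_apply, hP, hQ, val, val, val, map_add]⟩
      algebraMap_mem' := fun r => ⟨C r, fun F => by rw [val, eval_C]; rfl⟩ }
  have hlin : ∀ l : Sd n d →ₗ[ℂ] ℂ, (⇑l : Sd n d → ℂ) ∈ A := by
    intro l
    let s : Finset (Fin (n + 2) →₀ ℕ) := Finset.finsuppAntidiag Finset.univ d
    have hmem : ∀ u : Fin (n + 2) →₀ ℕ, u.degree = d → u ∈ s := by
      intro u hu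
      rw [Finset.mem_finsuppAntidiag]
      rw [Finsupp.degree_eq_sum] at hu
      exact ⟨hu, Finset.subset_univ _⟩
    have hdeg : ∀ u ∈ s, u.degree = d := by
      intro u hu
      rw [Finset.mem_finsuppAntidiag] at hu
      rw [Finsupp.degree_eq_sum]
      exact hu.1
    let E : (Fin (n + 2) →₀ ℕ) → Sd n d := fun u =>
      if h : u.degree = d then ⟨monomial u 1, (mem_homogeneousSubmodule _ _).2
        (isHomogeneous_monomial _ h)⟩ else 0
    refine ⟨∑ u ∈ s, C (l (E u)) * X u, fun F => ?_⟩
    have hF : F = ∑ u ∈ s, F.1.coeff u • E u := by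
      apply Subtype.ext
      rw [Submodule.coe_sum]
      have h1 : ∀ u ∈ s, ((F.1.coeff u • E u : Sd n d) : Frm n) = monomial u (F.1.coeff u) := by
        intro u hu
        rw [Submodule.coe_smul]
        simp only [E, dif_pos (hdeg u hu)]
        rw [smul_monomial, smul_eq_mul, mul_one]
      rw [Finset.sum_congr rfl h1]
      ext v
      rw [coeff_sum]
      simp only [coeff_monomial]
      by_cases hv : v ∈ s
      · rw [Finset.sum_eq_single v]
        · rw [if_pos rfl]
        · intro b _ hb
          rw [if_neg hb]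
        · intro h
          exact absurd hv h
      · rw [Finset.sum_eq_zero]
        · by_contra hne
          apply hv
          apply hmem
          have h2 := ((mem_homogeneousSubmodule _ _).1 F.2) hne
          rw [← h2, Finsupp.degree_eq_weight_one]
          rfl
        · intro b hb
          rw [if_neg]
          rintro rfl
          exact hv hb
    calc l F = l (∑ u ∈ s, F.1.coeff u • E u) := by rw [← hF]
      _ = ∑ u ∈ s, F.1.coeff u * l (E u) := by
          rw [map_sum]
          exact Finset.sum_congr rfl fun u _ => by rw [map_smul, smul_eq_mul]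
      _ = val (∑ u ∈ s, C (l (E u)) * X u) F.1 := by
          unfold val
          rw [map_sum]
          exact Finset.sum_congr rfl fun u _ => by rw [map_mul, eval_C, eval_X, mul_comm]
  have h1 : P1 (Sd n d) ≤ Subalgebra.toSubmodule A := by
    unfold P1
    rw [Submodule.span_le]
    rintro g (rfl | ⟨l, rfl⟩)
    · exact A.one_mem
    · exact hlin l
  have h2 : ∀ D, PD (Sd n d) D ≤ Subalgebra.toSubmodule A := by
    intro D
    induction D with
    | zero =>
      rw [PD_zero, Submodule.one_le]
      exact A.one_mem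
    | succ D ih =>
      unfold PD at ih ⊢
      rw [pow_succ, Submodule.mul_le]
      intro x hx y hy
      exact A.mul_mem (ih hx) (h1 hy)
  obtain ⟨D, hD⟩ := hf
  exact h2 D hD

theorem cofS : CofS := fun _ _ f hf => exists_cof f hf

end Pool.Agent.H8.UGC
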