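import Pool.Agent.H8.UGC.Geo

/-!
# Block C, C6d: the bad forms are a cone which contains zero
-/

set_option autoImplicit false

open MvPolynomial Metric

namespace Pool.Agent.H8.UGC

open Pool.Agent.H47.KB

/-- the line `z ↦ (1, z, 0, ..)` -/
private def ln (r : ℕ) (z : ℂ) : Vec r := fun i => if i = 0 then 1 else if i = 1 then z else 0

private lemma ln_zero (r : ℕ) (z : ℂ) : ln r z 0 = 1 := by simp [ln]

private lemma ln_one (r : ℕ) (z : ℂ) : ln r z 1 = z := by
  have : (1 : Fin (r + 2)) ≠ 0 := Fin.zero_ne_one.symm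
  simp [ln, this]

private lemma ln_norm (r : ℕ) (z : ℂ) (j : Fin (r + 2)) : ‖ln r z j‖ ≤ max 1 ‖z‖ := by
  unfold ln
  split_ifs
  · simp
  · simp
  · simp

private lemma ln_diff (r : ℕ) (j : Fin (r + 2)) : Differentiable ℂ (fun z => ln r z j) := by
  unfold ln
  split_ifs
  · exact differentiable_const _
  · exact differentiable_id
  · exact differentiable_const _

theorem zero_mem_Bad (r d : ℕ) : (0 : Vd r d) ∈ Bad r d := by
  refine ⟨ln r, ⟨⟨1 / 2, by norm_num, 2, fun z0 => ?_⟩, fun z => by simp⟩, ?_, 0, ?_⟩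
  · by_cases h : ‖z0‖ ≤ 1
    · refine ⟨0, ⟨fun z _ => by simp [ln_zero], fun z hz j => ?_, fun j => ?_⟩⟩
      · rw [ln_zero, norm_one, mul_one]
        refine (ln_norm r z j).trans (max_le (by norm_num) ?_)
        have h1 : ‖z - z0‖ < 1 / 2 := mem_ball_iff_norm.1 hz
        have h2 : ‖z‖ ≤ ‖z - z0‖ + ‖z0‖ := by simpa using norm_add_le (z - z0) z0
        linarith
      · simp only [ln_zero, div_one]
        exact (ln_diff r j).differentiableOn
    · have h0 : ∀ z ∈ ball z0 (1 / 2), 1 / 2 ≤ ‖z‖ := by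
        intro z hz
        have h1 : ‖z - z0‖ < 1 / 2 := mem_ball_iff_norm.1 hz
        have h2 : ‖z0‖ ≤ ‖z‖ + ‖z - z0‖ := by
          have := norm_sub_le z (z - z0)
          simpa using this
        linarith
      refine ⟨1, ⟨fun z hz => ?_, fun z hz j => ?_, fun j => ?_⟩⟩
      · rw [ln_one]
        intro h1
        have := h0 z hz
        rw [h1, norm_zero] at this
        norm_num at this
      · rw [ln_one]
        have := h0 z hz
        exact (ln_norm r z j).trans (max_le (by linarith) (by linarith))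
      · simp only [ln_one]
        refine (ln_diff r j).differentiableOn.div differentiableOn_id fun z hz => ?_
        intro h1
        have := h0 z hz
        rw [h1, norm_zero] at this
        norm_num at this
  · intro hc
    obtain ⟨c, hc⟩ := hc 1
    have h1 := congrFun hc 1
    rw [ln_one, Pi.smul_apply, ln_one, smul_zero] at h1
    exact one_ne_zero h1
  · funext i
    unfold ln e0
    by_cases hi : i = 0
    · subst hi
      simp
    · simp [hi]

theorem Bad_cone (r d : ℕ) : ∀ c : ℂ, ∀ F ∈ Bad r d, c • F ∈ Bad r d := by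
  rintro c F ⟨f, ⟨hf, hf0⟩, hc, hz⟩
  refine ⟨f, ⟨hf, fun z => ?_⟩, hc, hz⟩
  rw [Submodule.coe_smul, smul_eval, hf0 z, mul_zero]

end Pool.Agent.H8.UGC
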