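import Pool.Agent.H8.UGC.Stm
import Pool.Agent.H97.HY.Bro

/-!
# Block C, module C8c: the end of the proof, from `n + 1` independent good forms to general forms
-/

set_option autoImplicit false

open MvPolynomial Metric

namespace Pool.Agent.H8.UGC

open Pool.Agent.H47.KB

theorem ZC_zero {V : Type} [AddCommGroup V] [Module ℂ V] {f : V → ℂ} (hf : IsPoly f) : ZC {v | f v = 0} :=
  fun _ hv => hv f hf fun _ hb => hb

/-- Finitely many polynomial functions, none of them zero, have a common point where they do not vanish. -/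
theorem exists_common {V : Type} [AddCommGroup V] [Module ℂ V] {m : ℕ} (f : Fin m → V → ℂ) (hf : ∀ i, IsPoly (f i))
    (h : ∀ i, ∃ v, f i v ≠ 0) : ∃ v, ∀ i, f i v ≠ 0 := by
  by_contra hcon
  push Not at hcon
  obtain ⟨i, _, hi⟩ := cover Finset.univ (fun i => {v | f i v = 0}) (fun i _ => ZC_zero (hf i)) fun v => by
    obtain ⟨i, hi⟩ := hcon v
    exact ⟨i, Finset.mem_univ i, hi⟩
  obtain ⟨v, hv⟩ := h i
  exact hv (hi v)

/-- The limit curves of Brody's lemma have uniform charts. -/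
theorem brodyC_of_bcurve {n : ℕ} {F : Frm n} {f : ℂ → Vec n} (hf : Pool.Agent.H97.HY.BCurve (N := n + 1) f)
    (h0 : ∀ z, eval (f z) F = 0) : BrodyC F f := by
  refine ⟨⟨Pool.Agent.H97.HY.rho, Pool.Agent.H97.HY.rho_pos, 2, fun z0 => ?_⟩, h0⟩
  obtain ⟨i, hi⟩ := hf.chart z0
  exact ⟨i, hi.ne, hi.le, hi.hol⟩

/-- They are not constant. -/
theorem not_const_of_bcurve {n : ℕ} {f : ℂ → Vec n} (hf : Pool.Agent.H97.HY.BCurve (N := n + 1) f) :
    ¬ IsConst f := by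
  intro hc
  obtain ⟨i, j, hi, hd⟩ := hf.mov
  have hev : (fun z => f z j / f z i) =ᶠ[nhds 0] fun _ => f 0 j / f 0 i := by
    filter_upwards [ball_mem_nhds (0 : ℂ) Pool.Agent.H97.HY.rho_pos] with z hz
    obtain ⟨c, hcz⟩ := hc z
    have h1 : f z i ≠ 0 := hi.ne z hz
    have h2 : f z i = c * f 0 i := congrFun hcz i
    have h3 : f z j = c * f 0 j := congrFun hcz j
    have hc0 : c ≠ 0 := by
      rintro rfl
      exact h1 (by rw [h2, zero_mul])
    rw [h2, h3, mul_div_mul_left _ _ hc0]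
  have h4 : deriv (fun z => f z j / f z i) 0 = 0 := by
    rw [hev.deriv_eq]
    exact deriv_const _ _
  rw [h4, norm_zero] at hd
  norm_num at hd

/-- If `F` has no non constant Brody curve, all entire curves in `{F = 0}` are constant. -/
theorem const_of_no_brodyC {n d : ℕ} {F : Frm n} (hF : F.IsHomogeneous d)
    (h : ∀ f : ℂ → Vec n, BrodyC F f → IsConst f) : ∀ g, Entire F g → IsConst g := by
  intro g hg
  refine Pool.Agent.H97.HY.brody (N := n + 1) hF ?_ g hg.1 hg.2.1 hg.2.2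
  rintro ⟨f, hf, h0⟩
  exact not_const_of_bcurve hf (h f (brodyC_of_bcurve hf h0))

/-- The last step of block C, from the statements of the other modules. -/
theorem finish_of {n d : ℕ}
    (hcount : ∀ (i : Fin (n + 2)) (Z : Set (Vd n d)), ZC Z → (∀ c : ℂ, ∀ z ∈ Z, c • z ∈ Z) →
      ∀ W : Submodule ℂ (Vd n d), (∀ w ∈ W, w ∈ Z → w = 0) →
      ∀ T : (Fin (n + 1) → ℂ) × Vd n d → Sd n d, PolyMap T →
      Module.finrank ℂ (Fin (n + 1) → ℂ) + Module.finrank ℂ (Vd n d ⧸ W) < Module.finrank ℂ (Sd n d) →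
      ∃ f : Sd n d → ℂ, IsPoly f ∧ (∃ s, f s ≠ 0) ∧ ∀ a, ∀ z ∈ Z, f (T (a, z)) = 0)
    (hmap : ∀ (φ : Vec n →ₗ[ℂ] Vec n), Function.Injective φ → ∀ {F G : Frm n},
      (∀ x, eval x G = eval (φ x) F) → ∀ {f : ℂ → Vec n}, BrodyC G f → ¬ IsConst f →
      BrodyC F (fun z => φ (f z)) ∧ ¬ IsConst (fun z => φ (f z)))
    (hresc : ∀ {F : Frm n}, F.IsHomogeneous d → ∀ {f : ℂ → Vec n}, BrodyC F f → ¬ IsConst f →
      ∀ c : ℂ → ℂ, (∀ z, c z ≠ 0) → BrodyC F (fun z => c z • f z) ∧ ¬ IsConst (fun z => c z • f z))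
    (hcone : ∀ c : ℂ, ∀ F ∈ Bad n d, c • F ∈ Bad n d)
    (hcof : ∀ f : Sd n d → ℂ, IsPoly f → ∃ P : Cof n, ∀ F, f F = val P F.1)
    (hrank : Module.finrank ℂ (Vd n d) + 1 = Module.finrank ℂ (Sd n d))
    (hT : ∀ i : Fin (n + 2), ∃ T : (Fin (n + 1) → ℂ) × Vd n d → Sd n d, PolyMap T ∧
      ∀ x : Vec n, x i = 1 → ∃ (a : Fin (n + 1) → ℂ) (φ : Vec n →ₗ[ℂ] Vec n), Function.Injective φ ∧
        φ x = e0 n ∧ ∀ F : Sd n d, eval x F.1 = 0 → ∃ G : Vd n d, T (a, G) = F ∧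
          ∀ y, eval y F.1 = eval (φ y) G.1)
    (W : Submodule ℂ (Vd n d))
    (hW : n + 1 ≤ Module.finrank ℂ W) (hWZ : ∀ w ∈ W, w ∈ cl (Bad n d) → w = 0) : Hyp n d := by
  classical
  have hdim : Module.finrank ℂ (Fin (n + 1) → ℂ) + Module.finrank ℂ (Vd n d ⧸ W) <
      Module.finrank ℂ (Sd n d) := by
    have h1 := W.finrank_quotient_add_finrank
    rw [Module.finrank_fin_fun]
    omega
  have hex : ∀ i : Fin (n + 2), ∃ f : Sd n d → ℂ, IsPoly f ∧ (∃ s, f s ≠ 0) ∧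
      ∀ F : Sd n d, f F ≠ 0 → ∀ x : Vec n, x i = 1 → eval x F.1 = 0 →
        ∀ g : ℂ → Vec n, BrodyC F.1 g → ¬ IsConst g → g 0 ≠ x := by
    intro i
    obtain ⟨T, hTp, hTx⟩ := hT i
    obtain ⟨f, hf, hne, hz⟩ := hcount i (cl (Bad n d)) (ZC_cl _) (cl_cone hcone) W hWZ T hTp hdim
    refine ⟨f, hf, hne, fun F hF x hx h0 g hg hc hgx => hF ?_⟩
    obtain ⟨a, φ, hφ, hφx, hG⟩ := hTx x hx
    obtain ⟨G, hTG, hev⟩ := hG F h0
    obtain ⟨h1, h2⟩ := hmap φ hφ hev hg hc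
    rw [← hTG]
    refine hz a G (subset_cl _ ⟨_, h1, h2, 0, ?_⟩)
    rw [hgx, hφx]
  choose f hf hne hbad using hex
  obtain ⟨F₁, hF₁⟩ := exists_common f hf hne
  have hP : ∀ i, ∃ P : Cof n, ∀ F, f i F = val P F.1 := fun i => hcof (f i) (hf i)
  choose P hP using hP
  refine ⟨∏ i, P i, ⟨F₁.1, (mem_homogeneousSubmodule _ _).1 F₁.2, ?_⟩, ?_⟩
  · unfold val
    rw [map_prod, Finset.prod_ne_zero_iff]
    intro i _
    have := hF₁ i
    rw [hP i] at this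
    exact this
  · intro F hF hval
    refine const_of_no_brodyC hF fun g hg => ?_
    by_contra hc
    obtain ⟨⟨r, hr, C, hch⟩, h0⟩ := hg
    obtain ⟨i, hi⟩ := hch 0
    have hgi : g 0 i ≠ 0 := hi.ne 0 (mem_ball_self hr)
    obtain ⟨h1, h2⟩ := hresc hF ⟨⟨r, hr, C, hch⟩, h0⟩ hc (fun _ => (g 0 i)⁻¹) fun _ => inv_ne_zero hgi
    have h3 : f i ⟨F, (mem_homogeneousSubmodule _ _).2 hF⟩ ≠ 0 := by
      rw [hP i]
      unfold val at hval
      rw [map_prod, Finset.prod_ne_zero_iff] at hval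
      exact hval i (Finset.mem_univ i)
    refine hbad i ⟨F, (mem_homogeneousSubmodule _ _).2 hF⟩ h3 ((g 0 i)⁻¹ • g 0) ?_ ?_
      (fun z => (g 0 i)⁻¹ • g z) h1 h2 rfl
    · rw [Pi.smul_apply, smul_eq_mul, inv_mul_cancel₀ hgi]
    · exact h1.2 0

/-- C8c -/
theorem finish (hcount : CountS) (hcof : CofS) (hdim : DimS) (htra : TraS) (hmap : MapS)
    (hres : ResS) (_hzero : ZeroS) (hcone : ConeS) : FinishS := by
  intro n d hd W hW hWZ
  refine finish_of ?_ ?_ ?_ (hcone n d) (hcof n d) (hdim n d hd) (htra n d) W hW hWZ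
  · intro _ Z hZ hc W' hW' T hT hlt
    exact hcount _ _ _ Z hZ hc W' hW' T hT hlt
  · intro φ hφ F G hFG f hf hc
    exact hmap n n φ hφ F G hFG f hf hc
  · intro F hF f hf hc c hcz
    exact hres n d F hF f hf hc c hcz

end Pool.Agent.H8.UGC
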