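import Pool.Agent.H8.UGC.Stm

/-!
# Block C, C6a: restriction of forms to a hyperplane through `e0`
-/

set_option autoImplicit false

open MvPolynomial

noncomputable section

namespace Pool.Agent.H8.UGC

open Pool.Agent.H47.KB

/-- a homogeneous multiple of a linear form is a homogeneous multiple -/
theorem exists_homog_factor {σ : Type} {e : ℕ} {L F G : MvPolynomial σ ℂ} (hL : L.IsHomogeneous 1)
    (hF : F.IsHomogeneous (e + 1)) (h : F = L * G) :
    F = L * homogeneousComponent e G := by
  have h1 : F = homogeneousComponent (e + 1) (∑ i ∈ Finset.range (G.totalDegree + 1),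
      L * homogeneousComponent i G) := by
    rw [← Finset.mul_sum, sum_homogeneousComponent, ← h, homogeneousComponent_eq_self hF]
  rw [map_sum] at h1
  have h2 : ∀ i ∈ Finset.range (G.totalDegree + 1),
      homogeneousComponent (e + 1) (L * homogeneousComponent i G) =
        if i = e then L * homogeneousComponent e G else 0 := by
    intro i _
    have h3 : (L * homogeneousComponent i G).IsHomogeneous (1 + i) :=
      hL.mul (homogeneousComponent_isHomogeneous i G)
    rw [homogeneousComponent_of_mem ((mem_homogeneousSubmodule _ _).2 h3)]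
    by_cases h4 : i = e
    · subst h4
      rw [if_pos (by omega), if_pos rfl]
    · rw [if_neg (by omega), if_neg h4]
  rw [Finset.sum_congr rfl h2, Finset.sum_ite_eq'] at h1
  split_ifs at h1 with h5
  · exact h1
  · rw [h1]
    have h6 : homogeneousComponent e G = 0 := by
      refine homogeneousComponent_eq_zero _ _ ?_
      rw [Finset.mem_range] at h5
      omega
    rw [h6, mul_zero]

/-- the substitution: `X_0 ↦ X_0`, `X_(j+1) ↦ -∑ (l_i/l_j) X`, the other variables are renamed -/
def sb {r : ℕ} (l : Fin (r + 2) → ℂ) (j : Fin (r + 2)) : Fin (r + 3) → Frm r :=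
  Fin.cons (X 0) (j.insertNth (α := fun _ => Frm r)
    (-∑ i : Fin (r + 1), C (l (j.succAbove i) / l j) * X i.succ) fun i => X i.succ)

theorem sb_zero {r : ℕ} (l : Fin (r + 2) → ℂ) (j : Fin (r + 2)) : sb l j 0 = X 0 := rfl

theorem sb_self {r : ℕ} (l : Fin (r + 2) → ℂ) (j : Fin (r + 2)) :
    sb l j j.succ = -∑ i : Fin (r + 1), C (l (j.succAbove i) / l j) * X i.succ := by
  unfold sb
  rw [Fin.cons_succ, Fin.insertNth_apply_same]

theorem sb_above {r : ℕ} (l : Fin (r + 2) → ℂ) (j : Fin (r + 2)) (i : Fin (r + 1)) :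
    sb l j (j.succAbove i).succ = X i.succ := by
  unfold sb
  rw [Fin.cons_succ, Fin.insertNth_apply_succAbove]

theorem sb_homog {r : ℕ} (l : Fin (r + 2) → ℂ) (j : Fin (r + 2)) (i : Fin (r + 3)) :
    (sb l j i).IsHomogeneous 1 := by
  refine Fin.cases ?_ (fun i => ?_) i
  · exact isHomogeneous_X _ _
  · refine Fin.succAboveCases j ?_ (fun i => ?_) i
    · rw [sb_self]
      refine (IsHomogeneous.sum _ _ _ fun i _ => ?_).neg
      have := (isHomogeneous_C (Fin (r + 2)) (l (j.succAbove i) / l j)).mul (isHomogeneous_X ℂ i.succ)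
      rwa [zero_add] at this
    · rw [sb_above]
      exact isHomogeneous_X _ _

/-- the embedding of the variables -/
def em {r : ℕ} (j : Fin (r + 2)) : Fin (r + 2) → Fin (r + 3) :=
  Fin.cons 0 fun i => (j.succAbove i).succ

theorem sb_em {r : ℕ} (l : Fin (r + 2) → ℂ) (j : Fin (r + 2)) (i : Fin (r + 2)) :
    sb l j (em j i) = X i := by
  refine Fin.cases ?_ (fun i => ?_) i
  · rfl
  · unfold em
    rw [Fin.cons_succ, sb_above]

theorem aeval_sb_rename {r : ℕ} (l : Fin (r + 2) → ℂ) (j : Fin (r + 2)) (G : Frm r) :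
    aeval (sb l j) (rename (em j) G) = G := by
  rw [aeval_rename]
  have h1 : sb l j ∘ em j = X := by
    funext i
    exact sb_em l j i
  rw [h1, aeval_X_left_apply]

theorem lf_homog {r : ℕ} (l : Fin (r + 2) → ℂ) : (lf l).IsHomogeneous 1 := by
  refine IsHomogeneous.sum _ _ _ fun i _ => ?_
  have := (isHomogeneous_C (Fin (r + 3)) (l i)).mul (isHomogeneous_X ℂ i.succ)
  rwa [zero_add] at this

theorem aeval_sb_lf {r : ℕ} (l : Fin (r + 2) → ℂ) (j : Fin (r + 2)) (hj : l j ≠ 0) :
    aeval (sb l j) (lf l) = 0 := by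
  unfold lf
  rw [map_sum, Fin.sum_univ_succAbove _ j]
  simp only [map_mul, aeval_X, sb_self, sb_above]
  rw [mul_neg, Finset.mul_sum, neg_add_eq_zero]
  refine Finset.sum_congr rfl fun i _ => ?_
  rw [← mul_assoc, ← algebraMap_eq, AlgHom.commutes, AlgHom.commutes]
  rw [algebraMap_eq, ← C_mul, mul_div_cancel₀ _ hj]

theorem sub_mem_span_lf {r : ℕ} (l : Fin (r + 2) → ℂ) (j : Fin (r + 2)) (hj : l j ≠ 0) (F : Frm (r + 1)) :
    F - rename (em j) (aeval (sb l j) F) ∈ Ideal.span {lf l} := by
  rw [← Ideal.Quotient.mk_eq_mk_iff_sub_mem]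
  have h1 : (Ideal.Quotient.mkₐ ℂ (Ideal.span {lf l})) =
      ((Ideal.Quotient.mkₐ ℂ (Ideal.span {lf l})).comp (rename (em j))).comp (aeval (sb l j)) := by
    refine MvPolynomial.algHom_ext fun i => ?_
    rw [AlgHom.comp_apply, AlgHom.comp_apply, aeval_X]
    refine Fin.cases ?_ (fun i => ?_) i
    · rw [sb_zero, rename_X]
      rfl
    · refine Fin.succAboveCases j ?_ (fun i => ?_) i
      · rw [sb_self]
        refine (Ideal.Quotient.mk_eq_mk_iff_sub_mem _ _).2 ?_
        rw [Ideal.mem_span_singleton']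
        refine ⟨C (l j)⁻¹, ?_⟩
        rw [map_neg, sub_neg_eq_add, map_sum]
        unfold lf
        rw [Fin.sum_univ_succAbove _ j, mul_add, ← mul_assoc, ← C_mul, inv_mul_cancel₀ hj, C_1, one_mul,
          Finset.mul_sum]
        refine congrArg _ (Finset.sum_congr rfl fun i _ => ?_)
        rw [map_mul, rename_C, rename_X, ← mul_assoc, ← C_mul, div_eq_inv_mul]
        rfl
      · rw [sb_above, rename_X]
        rfl
  exact DFunLike.congr_fun h1 F

theorem exists_pi {r e : ℕ} (l : Fin (r + 2) → ℂ) (hl : l ≠ 0) :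
    ∃ (π : Vd (r + 1) (e + 1) →ₗ[ℂ] Vd r (e + 1)) (φ : Vec r →ₗ[ℂ] Vec (r + 1)),
      Function.Injective φ ∧ φ (e0 r) = e0 (r + 1) ∧
      (∀ (F : Vd (r + 1) (e + 1)) (x : Vec r), eval x (π F).1 = eval (φ x) F.1) ∧
      Function.Surjective π ∧ LinearMap.ker π = LinearMap.range (mm r e l) := by
  obtain ⟨j, hj⟩ := Function.ne_iff.1 hl
  rw [Pi.zero_apply] at hj
  -- the linear map of the points
  have hadd : ∀ x y : Vec r, (fun i => eval (x + y) (sb l j i)) =
      (fun i => eval x (sb l j i)) + fun i => eval y (sb l j i) := by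
    intro x y
    funext i
    rw [Pi.add_apply]
    refine Fin.cases ?_ (fun i => ?_) i
    · simp [sb_zero]
    · refine Fin.succAboveCases j ?_ (fun i => ?_) i
      · simp only [sb_self, map_neg, map_sum, map_mul, eval_C, eval_X, Pi.add_apply, mul_add,
          Finset.sum_add_distrib]
        ring
      · simp [sb_above]
  have hsmul : ∀ (c : ℂ) (x : Vec r), (fun i => eval (c • x) (sb l j i)) =
      c • fun i => eval x (sb l j i) := by
    intro c x
    funext i
    rw [Pi.smul_apply]
    refine Fin.cases ?_ (fun i => ?_) i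
    · simp [sb_zero]
    · refine Fin.succAboveCases j ?_ (fun i => ?_) i
      · simp only [sb_self, map_neg, map_sum, map_mul, eval_C, eval_X, Pi.smul_apply, smul_eq_mul, mul_neg,
          Finset.mul_sum]
        refine congrArg _ (Finset.sum_congr rfl fun i _ => ?_)
        ring
      · simp [sb_above]
  let φ : Vec r →ₗ[ℂ] Vec (r + 1) :=
    { toFun := fun x i => eval x (sb l j i)
      map_add' := hadd
      map_smul' := hsmul }
  have hφ : ∀ x i, φ x i = eval x (sb l j i) := fun x i => rfl
  have hφem : ∀ x i, φ x (em j i) = x i := by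
    intro x i
    rw [hφ, sb_em, eval_X]
  have hφ0 : φ (e0 r) = e0 (r + 1) := by
    funext i
    rw [hφ]
    refine Fin.cases ?_ (fun i => ?_) i
    · simp [sb_zero, e0]
    · refine Fin.succAboveCases j ?_ (fun i => ?_) i
      · simp [sb_self, e0]
      · simp [sb_above, e0]
  have hev : ∀ (F : Frm (r + 1)) (x : Vec r), eval x (aeval (sb l j) F) = eval (φ x) F := by
    intro F x
    rw [← coe_aeval_eq_eval, ← coe_aeval_eq_eval]
    change aeval x (aeval (sb l j) F) = aeval (φ x) F
    rw [← AlgHom.comp_apply, comp_aeval]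
    rfl
  have hmem : ∀ F : Vd (r + 1) (e + 1), aeval (sb l j) F.1 ∈ Vd r (e + 1) := by
    intro F
    obtain ⟨h1, h2⟩ := mem_Vd.1 F.2
    rw [mem_Vd]
    constructor
    · have h3 := h1.aeval (sb l j) (sb_homog l j)
      rwa [one_mul] at h3
    · rw [hev, hφ0]
      exact h2
  let π : Vd (r + 1) (e + 1) →ₗ[ℂ] Vd r (e + 1) :=
    { toFun := fun F => ⟨aeval (sb l j) F.1, hmem F⟩
      map_add' := fun F G => Subtype.ext (by simp)
      map_smul' := fun c F => Subtype.ext (by simp) }
  have hπ : ∀ F, (π F).1 = aeval (sb l j) F.1 := fun F => rfl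
  refine ⟨π, φ, ?_, hφ0, fun F x => by rw [hπ, hev], ?_, ?_⟩
  · intro x y hxy
    funext i
    rw [← hφem x i, ← hφem y i, hxy]
  · intro G
    obtain ⟨h1, h2⟩ := mem_Vd.1 G.2
    refine ⟨⟨rename (em j) G.1, ?_⟩, ?_⟩
    · rw [mem_Vd]
      refine ⟨h1.rename_isHomogeneous, ?_⟩
      rw [← hφ0, ← hev, aeval_sb_rename]
      exact h2
    · apply Subtype.ext
      rw [hπ]
      exact aeval_sb_rename l j G.1
  · ext F
    rw [LinearMap.mem_ker, LinearMap.mem_range]
    constructor
    · intro h
      have h1 : aeval (sb l j) F.1 = 0 := by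
        rw [← hπ, h]
        rfl
      have h2 := sub_mem_span_lf l j hj F.1
      rw [h1, map_zero, sub_zero, Ideal.mem_span_singleton'] at h2
      obtain ⟨G, hG⟩ := h2
      have h3 : F.1 = lf l * G := by rw [← hG, mul_comm]
      have h4 := exists_homog_factor (lf_homog l) (mem_Vd.1 F.2).1 h3
      refine ⟨⟨homogeneousComponent e G, homogeneousComponent_mem e G⟩, ?_⟩
      apply Subtype.ext
      rw [mm_val]
      exact h4.symm
    · rintro ⟨G, rfl⟩
      apply Subtype.ext
      rw [hπ, mm_val, map_mul, aeval_sb_lf l j hj, zero_mul]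
      rfl

theorem piS : PiS := fun _ _ l hl => exists_pi l hl

end Pool.Agent.H8.UGC

end
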