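import Pool.Agent.H8.UGC.Stm

/-!
# Block C6b: every form of degree `e + 1` vanishing at `e0` is `∑_{i ≥ 1} X_i G_i`
-/

set_option autoImplicit false

open MvPolynomial

namespace Pool.Agent.H8.UGC

open Pool.Agent.H47.KB

theorem spn_degree_of_mem {r d : ℕ} {F : Frm r} (hF : F.IsHomogeneous d) {α : Fin (r + 2) →₀ ℕ}
    (hα : α ∈ F.support) : α.degree = d := by
  have h := hF (mem_support_iff.1 hα)
  rw [Finsupp.degree_eq_weight_one]
  exact h

theorem spn_eval_e0 {r d : ℕ} {F : Frm r} (hF : F.IsHomogeneous d) :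
    eval (e0 r) F = coeff (Finsupp.single 0 d) F := by
  classical
  rw [eval_eq']
  have h0 : ∀ β : Fin (r + 2) →₀ ℕ, (∃ i : Fin (r + 1), β i.succ ≠ 0) →
      ∏ i, (e0 r) i ^ β i = 0 := by
    rintro β ⟨i, hi⟩
    refine Finset.prod_eq_zero (Finset.mem_univ i.succ) ?_
    have h1 : e0 r i.succ = 0 := by
      unfold e0
      rw [Pi.single_apply, if_neg (Fin.succ_ne_zero i)]
    rw [h1, zero_pow hi]
  have h1 : ∏ i, (e0 r) i ^ (Finsupp.single (0 : Fin (r + 2)) d) i = 1 := by
    refine Finset.prod_eq_one fun i _ => ?_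
    by_cases hi : i = 0
    · subst hi
      unfold e0
      rw [Pi.single_eq_same, one_pow]
    · rw [Finsupp.single_apply, if_neg (Ne.symm hi), pow_zero]
  have h2 : ∀ β ∈ F.support, β ≠ Finsupp.single 0 d → ∃ i : Fin (r + 1), β i.succ ≠ 0 := by
    intro β hβ hne
    by_contra hcon
    push Not at hcon
    apply hne
    have hdeg : β.degree = d := spn_degree_of_mem hF hβ
    have hsum : β.degree = β 0 := by
      rw [Finsupp.degree_eq_sum, Fin.sum_univ_succ, Finset.sum_eq_zero fun i _ => hcon i, add_zero]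
    ext i
    refine Fin.cases ?_ (fun j => ?_) i
    · rw [Finsupp.single_eq_same, ← hdeg, hsum]
    · rw [hcon j, Finsupp.single_apply, if_neg (Fin.succ_ne_zero j).symm]
  rw [Finset.sum_eq_single (Finsupp.single 0 d)]
  · rw [h1, mul_one]
  · intro β hβ hne
    rw [h0 β (h2 β hβ hne), mul_zero]
  · intro hn
    rw [notMem_support_iff.1 hn, zero_mul]

theorem spn_mm_span (r e : ℕ) :
    ⨆ i : Fin (r + 2), LinearMap.range (mm r e (Pi.single i 1)) = ⊤ := by
  classical
  rw [eq_top_iff]
  intro F _
  obtain ⟨hF, hF0⟩ := mem_Vd.1 F.2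
  rw [spn_eval_e0 hF] at hF0
  have key : F.1 ∈ Submodule.map (Vd (r + 1) (e + 1)).subtype
      (⨆ i : Fin (r + 2), LinearMap.range (mm r e (Pi.single i 1))) := by
    rw [← support_sum_monomial_coeff F.1]
    refine Submodule.sum_mem _ fun α hα => ?_
    have hdeg : α.degree = e + 1 := spn_degree_of_mem hF hα
    obtain ⟨i, hi⟩ : ∃ i : Fin (r + 2), α i.succ ≠ 0 := by
      by_contra hcon
      push Not at hcon
      have hsum : α.degree = α 0 := by
        rw [Finsupp.degree_eq_sum, Fin.sum_univ_succ, Finset.sum_eq_zero fun i _ => hcon i, add_zero]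
      have hα0 : α = Finsupp.single 0 (e + 1) := by
        ext i
        refine Fin.cases ?_ (fun j => ?_) i
        · rw [Finsupp.single_eq_same, ← hdeg, hsum]
        · rw [hcon j, Finsupp.single_apply, if_neg (Fin.succ_ne_zero j).symm]
      rw [hα0] at hα
      exact (mem_support_iff.1 hα) hF0
    have hα1 : Finsupp.single i.succ 1 + (α - Finsupp.single i.succ 1) = α := by
      refine add_tsub_cancel_of_le ?_
      rw [Finsupp.single_le_iff]
      omega
    have hdeg' : (α - Finsupp.single i.succ 1).degree = e := by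
      have h := congrArg Finsupp.degree hα1
      rw [map_add, Finsupp.degree_single, hdeg] at h
      omega
    let G : Sd (r + 1) e := ⟨monomial (α - Finsupp.single i.succ 1) (coeff α F.1), by
      rw [mem_homogeneousSubmodule]
      exact isHomogeneous_monomial _ hdeg'⟩
    refine ⟨mm r e (Pi.single i 1) G, ?_, ?_⟩
    · exact Submodule.mem_iSup_of_mem i ⟨G, rfl⟩
    · change (mm r e (Pi.single i 1) G).1 = _
      rw [mm_val]
      have hlf : lf (Pi.single i 1 : Fin (r + 2) → ℂ) = X i.succ := by
        unfold lf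
        rw [Finset.sum_eq_single i]
        · rw [Pi.single_eq_same, C_1, one_mul]
        · intro j _ hj
          rw [Pi.single_eq_of_ne hj, C_0, zero_mul]
        · intro h
          exact absurd (Finset.mem_univ i) h
      rw [hlf]
      change X i.succ * monomial (α - Finsupp.single i.succ 1) (coeff α F.1) = _
      rw [X, monomial_mul, one_mul, hα1]
  obtain ⟨x, hx, hxF⟩ := key
  have : x = F := Subtype.ext hxF
  rw [← this]
  exact hx

theorem mm_span : SpnS := fun r e => spn_mm_span r e

end Pool.Agent.H8.UGC
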