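import Pool.Agent.H8.UGC.Stm

/-!
# Block C, module C8b: dimensions and translations
-/

set_option autoImplicit false

open MvPolynomial

namespace Pool.Agent.H8.UGC

open Pool.Agent.H47.KB

/-- the dimensions -/
theorem finrank_Vd {n d : ℕ} (hd : 1 ≤ d) :
    Module.finrank ℂ (Vd n d) + 1 = Module.finrank ℂ (Sd n d) := by
  let f : Sd n d →ₗ[ℂ] ℂ := ((aeval (R := ℂ) (e0 n)).toLinearMap : Frm n →ₗ[ℂ] ℂ).domRestrict (Sd n d)
  have hle : Vd n d ≤ Sd n d := inf_le_left
  have hker : LinearMap.ker f = (Vd n d).comap (Sd n d).subtype := by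
    ext F
    rw [LinearMap.mem_ker, Submodule.mem_comap, Submodule.coe_subtype, Vd, Submodule.mem_inf,
      LinearMap.mem_ker]
    exact ⟨fun h => ⟨F.2, h⟩, fun h => h.2⟩
  have h1 : Module.finrank ℂ (LinearMap.ker f) = Module.finrank ℂ (Vd n d) := by
    rw [hker]
    exact (Submodule.comapSubtypeEquivOfLe hle).finrank_eq
  have h2 : LinearMap.range f = ⊤ := by
    rw [LinearMap.range_eq_top]
    intro c
    have hX : (X 0 ^ d : Frm n) ∈ Sd n d := by
      rw [mem_homogeneousSubmodule]
      have := (isHomogeneous_X ℂ (0 : Fin (n + 2))).pow d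
      rwa [one_mul] at this
    refine ⟨c • ⟨X 0 ^ d, hX⟩, ?_⟩
    rw [map_smul]
    show c • aeval (e0 n) (X 0 ^ d : Frm n) = c
    rw [map_pow, aeval_X, e0, Pi.single_eq_same, one_pow, smul_eq_mul, mul_one]
  have h3 := LinearMap.finrank_range_add_finrank_ker f
  rw [h2, finrank_top, Module.finrank_self, h1] at h3
  rw [← h3, add_comm]

/-! ## products of polynomial functions -/

section

variable {V : Type} [AddCommGroup V] [Module ℂ V]

private theorem tra_pow_mem {a : ℕ} {f : V → ℂ} (hf : f ∈ PD V a) (k : ℕ) : f ^ k ∈ PD V (a * k) := by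
  induction k with
  | zero =>
    rw [pow_zero, mul_zero]
    exact const_mem_PD 1 0
  | succ k ih =>
    rw [pow_succ, Nat.mul_succ]
    exact mul_mem_PD ih hf

private theorem tra_prod_mem {ι : Type} (s : Finset ι) (f : ι → V → ℂ) (k : ι → ℕ)
    (hf : ∀ i ∈ s, f i ∈ PD V (k i)) : ∏ i ∈ s, f i ∈ PD V (∑ i ∈ s, k i) := by
  classical
  induction s using Finset.induction_on with
  | empty =>
    rw [Finset.prod_empty, Finset.sum_empty]
    exact const_mem_PD 1 0
  | insert a s ha ih =>
    rw [Finset.prod_insert ha, Finset.sum_insert ha]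
    exact mul_mem_PD (hf a (Finset.mem_insert_self _ _))
      (ih fun i hi => hf i (Finset.mem_insert_of_mem hi))

end

/-! ## the substitutions -/

section

variable {n : ℕ} (i : Fin (n + 2)) (a : Fin (n + 1) → ℂ)

/-- the translation vector -/
private def tw : Vec n := fun k => i.insertNth (α := fun _ => ℂ) 0 a k

private theorem tw_self : tw i a i = 0 := Fin.insertNth_apply_same _ _ _

/-- the exchange of `0` and `i` -/
private def tsw : Equiv.Perm (Fin (n + 2)) := Equiv.swap 0 i

private theorem tsw_tsw (k : Fin (n + 2)) : tsw i (tsw i k) = k := Equiv.swap_apply_self _ _ _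

private theorem tsw_zero : tsw i 0 = i := Equiv.swap_apply_left _ _

private theorem tsw_i : tsw i i = 0 := Equiv.swap_apply_right _ _

/-- the linear map `y ↦ swap (y - y_i w)` -/
private def tphi : Vec n →ₗ[ℂ] Vec n where
  toFun y := fun j => y (tsw i j) - tw i a (tsw i j) * y i
  map_add' y z := by
    funext j
    simp only [Pi.add_apply]
    ring
  map_smul' c y := by
    funext j
    simp only [Pi.smul_apply, smul_eq_mul, RingHom.id_apply]
    ring

private theorem tphi_apply (y : Vec n) (j : Fin (n + 2)) :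
    tphi i a y j = y (tsw i j) - tw i a (tsw i j) * y i := rfl

private theorem tphi_inj : Function.Injective (tphi i a) := by
  rw [← LinearMap.ker_eq_bot, LinearMap.ker_eq_bot']
  intro y hy
  have h0 : y i = 0 := by
    have := congrFun hy 0
    rw [tphi_apply, tsw_zero, tw_self, zero_mul, sub_zero] at this
    exact this
  funext k
  have := congrFun hy (tsw i k)
  rw [tphi_apply, tsw_tsw, h0, mul_zero, sub_zero] at this
  exact this

/-- the linear forms of the substitution -/
private noncomputable def tL (j : Fin (n + 2)) : Frm n := X (tsw i j) - C (tw i a (tsw i j)) * X i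

/-- the linear forms of the inverse substitution -/
private noncomputable def tM (k : Fin (n + 2)) : Frm n := X (tsw i k) + C (tw i a k) * X 0

private theorem eval_tL (y : Vec n) (j : Fin (n + 2)) : eval y (tL i a j) = tphi i a y j := by
  rw [tL, tphi_apply, map_sub, map_mul, eval_X, eval_C, eval_X]

private theorem tL_hom (j : Fin (n + 2)) : (tL i a j).IsHomogeneous 1 := by
  refine (isHomogeneous_X ℂ _).sub ?_
  have := (isHomogeneous_C (Fin (n + 2)) (tw i a (tsw i j))).mul (isHomogeneous_X ℂ i)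
  rwa [zero_add] at this

private theorem tM_hom (k : Fin (n + 2)) : (tM i a k).IsHomogeneous 1 := by
  refine (isHomogeneous_X ℂ _).add ?_
  have := (isHomogeneous_C (Fin (n + 2)) (tw i a k)).mul (isHomogeneous_X ℂ (0 : Fin (n + 2)))
  rwa [zero_add] at this

private theorem bind_tM (F : Frm n) : aeval (tL i a) (aeval (tM i a) F) = F := by
  rw [← AlgHom.comp_apply]
  have h : (aeval (tL i a)).comp (aeval (tM i a) : Frm n →ₐ[ℂ] Frm n) = AlgHom.id ℂ (Frm n) := by
    refine algHom_ext fun k => ?_
    rw [AlgHom.comp_apply, aeval_X, tM, map_add, map_mul, aeval_X, aeval_X, aeval_C, tL, tL,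
      tsw_tsw, tsw_zero, tw_self, C_0, zero_mul, sub_zero, AlgHom.id_apply, algebraMap_eq]
    ring
  rw [h, AlgHom.id_apply]

private theorem eval_aeval (y : Vec n) (L : Fin (n + 2) → Frm n) (G : Frm n) :
    eval y (aeval L G) = eval (fun j => eval y (L j)) G := by
  have h := aeval_bind₁ (R := ℂ) (S := ℂ) y L G
  exact h

/-- the family of substitutions -/
private noncomputable def tT {d : ℕ} (v : (Fin (n + 1) → ℂ) × Vd n d) : Sd n d :=
  ⟨aeval (tL i v.1) v.2.1, by
    rw [mem_homogeneousSubmodule]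
    have := (mem_Vd.1 v.2.2).1.aeval (tL i v.1) (tL_hom i v.1)
    rwa [one_mul] at this⟩

private theorem eval_tT {d : ℕ} (v : (Fin (n + 1) → ℂ) × Vd n d) (y : Vec n) :
    eval y (tT i v).1 = eval (tphi i v.1 y) v.2.1 := by
  show eval y (aeval (tL i v.1) v.2.1) = _
  rw [eval_aeval]
  congr 2
  funext j
  exact eval_tL i v.1 y j

/-- the coordinates of `tphi` are affine in the parameters -/
private theorem tphi_mem {d : ℕ} (y : Vec n) (j : Fin (n + 2)) :
    (fun v : (Fin (n + 1) → ℂ) × Vd n d => tphi i v.1 y j) ∈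
      PD ((Fin (n + 1) → ℂ) × Vd n d) 1 := by
  have h1 : ∀ k : Fin (n + 2), (fun v : (Fin (n + 1) → ℂ) × Vd n d => tw i v.1 k) ∈
      PD ((Fin (n + 1) → ℂ) × Vd n d) 1 := by
    intro k
    rcases Fin.eq_self_or_eq_succAbove i k with rfl | ⟨k', rfl⟩
    · have : (fun v : (Fin (n + 1) → ℂ) × Vd n d => tw k v.1 k) = fun _ => 0 := by
        funext v
        exact tw_self k v.1
      rw [this]
      exact const_mem_PD 0 1
    · exact Eq.mpr (congrArg (· ∈ PD ((Fin (n + 1) → ℂ) × Vd n d) 1)
        (funext fun v => Fin.insertNth_apply_succAbove _ _ _ _)) (lin_mem_PD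
          ((LinearMap.proj k').comp (LinearMap.fst ℂ (Fin (n + 1) → ℂ) (Vd n d))) le_rfl)
  have h2 : (fun v : (Fin (n + 1) → ℂ) × Vd n d => tphi i v.1 y j) =
      (fun _ => y (tsw i j)) - y i • fun v : (Fin (n + 1) → ℂ) × Vd n d => tw i v.1 (tsw i j) := by
    funext v
    rw [tphi_apply, Pi.sub_apply, Pi.smul_apply, smul_eq_mul, mul_comm (y i)]
  rw [h2]
  exact Submodule.sub_mem _ (const_mem_PD _ _) (Submodule.smul_mem _ _ (h1 _))

private theorem eval_sum {d : ℕ} (G : Vd n d) (z : Vec n) :
    eval z G.1 = ∑ σ ∈ Finset.finsuppAntidiag (Finset.univ : Finset (Fin (n + 2))) d,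
      G.1.coeff σ * ∏ j, z j ^ σ j := by
  rw [eval_eq']
  refine Finset.sum_subset (fun σ hσ => ?_) fun σ _ hσ => ?_
  · rw [Finset.mem_finsuppAntidiag]
    refine ⟨?_, Finset.subset_univ _⟩
    have h1 := (mem_Vd.1 G.2).1 (mem_support_iff.1 hσ)
    rw [← h1, Finsupp.weight_apply, Finsupp.sum_fintype _ _ (fun _ => by simp)]
    simp
  · rw [notMem_support_iff.1 hσ, zero_mul]

/-- evaluation of a form at a point -/
private noncomputable def tev {d : ℕ} (y : Vec n) : Sd n d →ₗ[ℂ] ℂ :=
  ((aeval (R := ℂ) y).toLinearMap : Frm n →ₗ[ℂ] ℂ).domRestrict (Sd n d)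

private theorem tev_apply {d : ℕ} (y : Vec n) (F : Sd n d) : tev y F = eval y F.1 := rfl

private theorem tev_mem {d : ℕ} (y : Vec n) :
    (fun v : (Fin (n + 1) → ℂ) × Vd n d => tev y (tT i v)) ∈
      PD ((Fin (n + 1) → ℂ) × Vd n d) (1 + d) := by
  have h1 : (fun v : (Fin (n + 1) → ℂ) × Vd n d => tev y (tT i v)) =
      ∑ σ ∈ Finset.finsuppAntidiag (Finset.univ : Finset (Fin (n + 2))) d,
        (fun v : (Fin (n + 1) → ℂ) × Vd n d => v.2.1.coeff σ) *
          ∏ j, (fun v : (Fin (n + 1) → ℂ) × Vd n d => tphi i v.1 y j) ^ σ j := by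
    funext v
    rw [tev_apply, eval_tT, eval_sum, Finset.sum_apply]
    refine Finset.sum_congr rfl fun σ _ => ?_
    rw [Pi.mul_apply, Finset.prod_apply]
    rfl
  rw [h1]
  refine Submodule.sum_mem _ fun σ hσ => mul_mem_PD ?_ ?_
  · exact lin_mem_PD (((lcoeff ℂ σ).comp (Vd n d).subtype).comp
      (LinearMap.snd ℂ (Fin (n + 1) → ℂ) (Vd n d))) le_rfl
  · rw [Finset.mem_finsuppAntidiag] at hσ
    have h2 : ∑ j : Fin (n + 2), 1 * σ j = d := by
      rw [← hσ.1]
      simp
    have h3 := tra_prod_mem (V := (Fin (n + 1) → ℂ) × Vd n d) Finset.univ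
      (fun j => (fun v : (Fin (n + 1) → ℂ) × Vd n d => tphi i v.1 y j) ^ σ j)
      (fun j => 1 * σ j) fun j _ => tra_pow_mem (tphi_mem i y j) _
    rw [h2] at h3
    exact h3

private theorem span_tev {d : ℕ} : Submodule.span ℂ (Set.range fun y : Vec n => tev (d := d) y) = ⊤ := by
  refine Submodule.span_eq_top_of_ne_zero fun F hF => ?_
  by_contra hcon
  push Not at hcon
  refine hF (Subtype.ext ?_)
  refine MvPolynomial.funext fun y => ?_
  show eval y F.1 = eval y (0 : Frm n)
  rw [map_zero]
  exact hcon _ ⟨y, rfl⟩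

private theorem tT_poly {d : ℕ} : PolyMap (tT i : (Fin (n + 1) → ℂ) × Vd n d → Sd n d) := by
  refine ⟨1 + d, fun l => ?_⟩
  have hl : l ∈ Submodule.span ℂ (Set.range fun y : Vec n => tev (d := d) y) := by
    rw [span_tev]
    trivial
  induction hl using Submodule.span_induction with
  | mem l h =>
    obtain ⟨y, rfl⟩ := h
    exact tev_mem i y
  | zero => exact Submodule.zero_mem _
  | add l l' _ _ h h' => exact Submodule.add_mem _ h h'
  | smul c l _ h => exact Submodule.smul_mem _ c h

end

/-- for every coordinate `i` there is a polynomial family of linear substitutions which move `e0` to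
the points `x` with `x_i = 1` -/
theorem exists_T {n d : ℕ} (i : Fin (n + 2)) :
    ∃ T : (Fin (n + 1) → ℂ) × Vd n d → Sd n d, PolyMap T ∧
      ∀ x : Vec n, x i = 1 → ∃ (a : Fin (n + 1) → ℂ) (φ : Vec n →ₗ[ℂ] Vec n), Function.Injective φ ∧
        φ x = e0 n ∧ ∀ F : Sd n d, eval x F.1 = 0 → ∃ G : Vd n d, T (a, G) = F ∧
          ∀ y, eval y F.1 = eval (φ y) G.1 := by
  refine ⟨tT i, tT_poly i, fun x hx => ?_⟩
  set a : Fin (n + 1) → ℂ := fun k => x (i.succAbove k) with ha
  have hw : ∀ k, tw i a k = if k = i then 0 else x k := by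
    intro k
    rcases Fin.eq_self_or_eq_succAbove i k with h | ⟨k', h⟩
    · rw [h, tw_self, if_pos rfl]
    · rw [h, if_neg (Fin.succAbove_ne i k')]
      exact Fin.insertNth_apply_succAbove _ _ _ _
  refine ⟨a, tphi i a, tphi_inj i a, ?_, fun F hF => ?_⟩
  · funext j
    rw [tphi_apply, hw, hx, e0, mul_one]
    by_cases hj : j = 0
    · subst hj
      rw [tsw_zero, if_pos rfl, hx, Pi.single_eq_same, sub_zero]
    · have h1 : tsw i j ≠ i := fun h => hj (by
        have := congrArg (tsw i) h
        rwa [tsw_tsw, tsw_i] at this)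
      rw [if_neg h1, sub_self, Pi.single_eq_of_ne hj]
  · have hG : aeval (tM i a) F.1 ∈ Vd n d := by
      rw [mem_Vd]
      constructor
      · have := ((mem_homogeneousSubmodule _ _).1 F.2).aeval (tM i a) (tM_hom i a)
        rwa [one_mul] at this
      · rw [eval_aeval]
        have h1 : (fun j => eval (e0 n) (tM i a j)) = x := by
          funext k
          rw [tM, map_add, map_mul, eval_X, eval_X, eval_C, hw, e0, Pi.single_eq_same, mul_one]
          by_cases hk : k = i
          · subst hk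
            rw [tsw_i, if_pos rfl, Pi.single_eq_same, add_zero, hx]
          · have h2 : tsw i k ≠ 0 := fun h => hk (by
              have := congrArg (tsw i) h
              rwa [tsw_tsw, tsw_zero] at this)
            rw [if_neg hk, Pi.single_eq_of_ne h2, zero_add]
        rw [h1]
        exact hF
    refine ⟨⟨aeval (tM i a) F.1, hG⟩, Subtype.ext (bind_tM i a F.1), fun y => ?_⟩
    have h1 := eval_tT i (a, (⟨aeval (tM i a) F.1, hG⟩ : Vd n d)) y
    have h2 : (tT i (a, (⟨aeval (tM i a) F.1, hG⟩ : Vd n d))).1 = F.1 := bind_tM i a F.1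
    rw [h2] at h1
    exact h1

theorem dimS : DimS := fun _ _ hd => finrank_Vd hd

theorem traS : TraS := fun _ _ i => exists_T i

end Pool.Agent.H8.UGC
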