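import Pool.Agent.H8.UGC.Main
import Pool.Agent.H8.UGC.Cofs
import Pool.Agent.H8.UGC.Cone0
import Pool.Agent.H8.UGC.End
import Pool.Agent.H8.UGC.Hyp
import Pool.Agent.H8.UGC.Spn
import Pool.Agent.H8.UGC.Tra
import Pool.Agent.H31.UG.Bridge

/-!
# Block C: everything except the modules C6c and C7
-/

set_option autoImplicit false

open MvPolynomial

namespace Pool.Agent.H8.UGC

open Pool.Agent.H47.KB

theorem stepS : StepS := by
  intro L S V V' _ _ _ _ _ _ _ _ _ _ m π hker hspan Z Z' hZ hc hc' h0 hpre W hW hWZ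
  exact step m π hker hspan Z Z' hZ hc hc' h0 hpre W hW hWZ

theorem countS : CountS := by
  intro A S V _ _ _ _ _ _ _ _ _ Z hZ hc W hWZ T hT hdim
  exact count Z hZ hc W hWZ T hT hdim

theorem finishS (hmap : MapS) (hres : ResS) : FinishS := by
  intro n d hd W hW hWZ
  exact finish_of (fun _ Z hZ hc W hWZ T hT hdim => count Z hZ hc W hWZ T hT hdim)
    (fun φ hφ _ _ h _ hf hc => hmap _ _ φ hφ _ _ h _ hf hc)
    (fun hF _ hf hc c h0 => hres _ _ _ hF _ hf hc c h0)
    (Bad_cone n d) exists_cof (finrank_Vd hd) exists_T W hW hWZ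

theorem blockC_of (hmap : MapS) (hres : ResS) (hstart : StartS) : BlockC :=
  blockC stepS (fun _ _ l hl => exists_pi l hl) mm_span hmap zero_mem_Bad Bad_cone hstart
    (finishS hmap hres)

end Pool.Agent.H8.UGC
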