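import Pool.Agent.H8.UGC.Stm

/-!
# Block C, module C6c: Brody curves under injective linear maps, change of the representatives
-/

set_option autoImplicit false

open MvPolynomial Metric

namespace Pool.Agent.H8.UGC

open Pool.Agent.H47.KB

theorem bm_eval_smul {n d : ℕ} {F : Frm n} (hF : F.IsHomogeneous d) (c : ℂ) (x : Vec n) :
    eval (c • x) F = c ^ d * eval x F := by
  rw [eval_eq, eval_eq, Finset.mul_sum]
  refine Finset.sum_congr rfl fun u hu => ?_
  have h1 : u.degree = d := by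
    have h2 := hF (mem_support_iff.1 hu)
    rw [← h2, Finsupp.degree_eq_weight_one]
    rfl
  have h3 : ∏ i ∈ u.support, (c • x) i ^ u i = c ^ d * ∏ i ∈ u.support, x i ^ u i := by
    rw [← h1, Finsupp.degree_apply, ← Finset.prod_pow_eq_pow_sum, ← Finset.prod_mul_distrib]
    exact Finset.prod_congr rfl fun i _ => by rw [Pi.smul_apply, smul_eq_mul, mul_pow]
  rw [h3]
  ring

theorem resS : ResS := by
  intro n d F hF f hf hc c h0
  obtain ⟨⟨r, hr, C, hch⟩, hev⟩ := hf
  refine ⟨⟨⟨r, hr, C, fun z0 => ?_⟩, fun z => ?_⟩, fun hcon => hc fun z => ?_⟩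
  · obtain ⟨i, hi⟩ := hch z0
    refine ⟨i, fun z hz => ?_, fun z hz j => ?_, fun j => ?_⟩
    · rw [Pi.smul_apply, smul_eq_mul]
      exact mul_ne_zero (h0 z) (hi.ne z hz)
    · rw [Pi.smul_apply, Pi.smul_apply, smul_eq_mul, smul_eq_mul, norm_mul, norm_mul]
      calc ‖c z‖ * ‖f z j‖ ≤ ‖c z‖ * (C * ‖f z i‖) :=
            mul_le_mul_of_nonneg_left (hi.le z hz j) (norm_nonneg _)
        _ = C * (‖c z‖ * ‖f z i‖) := by ring
    · refine (hi.hol j).congr fun z hz => ?_
      rw [Pi.smul_apply, Pi.smul_apply, smul_eq_mul, smul_eq_mul]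
      exact mul_div_mul_left _ _ (h0 z)
  · rw [bm_eval_smul hF, hev z, mul_zero]
  · obtain ⟨a, ha⟩ := hcon z
    refine ⟨(c z)⁻¹ * a * c 0, ?_⟩
    have h1 : c z • f z = a • c 0 • f 0 := ha
    calc f z = (c z)⁻¹ • (c z • f z) := by rw [smul_smul, inv_mul_cancel₀ (h0 z), one_smul]
      _ = ((c z)⁻¹ * a * c 0) • f 0 := by rw [h1, smul_smul, smul_smul]

theorem mapS : MapS := by
  intro n m φ hφ F G h f hf hc
  obtain ⟨⟨r, hr, C, hch⟩, hev⟩ := hf
  refine ⟨⟨?_, fun z => ?_⟩, fun hcon => hc fun z => ?_⟩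
  · -- constants
    obtain ⟨K, hK0, hK⟩ : ∃ K : ℝ, 0 < K ∧ ∀ x, ‖φ x‖ ≤ K * ‖x‖ := by
      let Φ := LinearMap.toContinuousLinearMap φ
      refine ⟨‖Φ‖ + 1, by positivity, fun x => ?_⟩
      have h1 : ‖Φ x‖ ≤ ‖Φ‖ * ‖x‖ := Φ.le_opNorm x
      have h2 : Φ x = φ x := rfl
      rw [h2] at h1
      nlinarith [norm_nonneg x]
    obtain ⟨c, hc0, hcl⟩ : ∃ c : ℝ, 0 < c ∧ ∀ x, c * ‖x‖ ≤ ‖φ x‖ := by
      obtain ⟨k, hk, hk2⟩ := LinearMap.exists_antilipschitzWith φ (LinearMap.ker_eq_bot.2 hφ)
      refine ⟨(k : ℝ)⁻¹, by positivity, fun x => ?_⟩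
      have h1 := hk2.le_mul_dist x 0
      rw [map_zero, dist_zero_right, dist_zero_right] at h1
      have hk' : (0 : ℝ) < k := by exact_mod_cast hk
      rw [inv_mul_le_iff₀ hk']
      exact h1
    obtain ⟨i0, hi0⟩ := hch 0
    have hC : 0 ≤ C := by
      by_contra hneg
      push Not at hneg
      have h1 := hi0.le 0 (mem_ball_self hr) i0
      have h2 : 0 < ‖f 0 i0‖ := norm_pos_iff.2 (hi0.ne 0 (mem_ball_self hr))
      nlinarith
    set B : ℝ := 2 * (K * C) + 1 with hB
    have hB0 : 0 < B := by positivity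
    set r' : ℝ := min r (c * r / (2 * B)) with hr'
    have hr'0 : 0 < r' := lt_min hr (by positivity)
    refine ⟨r', hr'0, 2 * (K * C) / c, fun z0 => ?_⟩
    obtain ⟨i, hi⟩ := hch z0
    -- the local representative
    let w : ℂ → Vec m := fun z => φ (fun j => f z j / f z i)
    have hw : ∀ z ∈ ball z0 r, φ (f z) = f z i • w z := by
      intro z hz
      have h1 : f z = f z i • (fun j => f z j / f z i) := by
        funext j
        rw [Pi.smul_apply, smul_eq_mul]
        exact (mul_div_cancel₀ _ (hi.ne z hz)).symm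
      conv_lhs => rw [h1]
      rw [map_smul]
    have hhle : ∀ z ∈ ball z0 r, ‖(fun j => f z j / f z i : Vec n)‖ ≤ C := by
      intro z hz
      rw [pi_norm_le_iff_of_nonneg hC]
      intro j
      rw [norm_div, div_le_iff₀ (norm_pos_iff.2 (hi.ne z hz))]
      exact hi.le z hz j
    have hhge : ∀ z ∈ ball z0 r, 1 ≤ ‖(fun j => f z j / f z i : Vec n)‖ := by
      intro z hz
      have h1 := norm_le_pi_norm (fun j => f z j / f z i : Vec n) i
      rw [div_self (hi.ne z hz), norm_one] at h1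
      exact h1
    have hwle : ∀ z ∈ ball z0 r, ∀ k, ‖w z k‖ ≤ K * C := by
      intro z hz k
      refine (norm_le_pi_norm (w z) k).trans ((hK _).trans ?_)
      exact mul_le_mul_of_nonneg_left (hhle z hz) hK0.le
    have hwhol : ∀ k, DifferentiableOn ℂ (fun z => w z k) (ball z0 r) := by
      have h1 : DifferentiableOn ℂ (fun z => (fun j => f z j / f z i : Vec n)) (ball z0 r) :=
        differentiableOn_pi.2 hi.hol
      have h2 : DifferentiableOn ℂ w (ball z0 r) :=
        (LinearMap.toContinuousLinearMap φ).differentiable.comp_differentiableOn h1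
      exact differentiableOn_pi.1 h2
    have hz0 : z0 ∈ ball z0 r := mem_ball_self hr
    obtain ⟨j, hj⟩ : ∃ j, c ≤ ‖w z0 j‖ := by
      by_contra hcon
      push Not at hcon
      have h1 : ‖w z0‖ < c := (pi_norm_lt_iff hc0).2 hcon
      have h2 := hcl (fun j => f z0 j / f z0 i)
      have h3 := hhge z0 hz0
      have h4 : c ≤ ‖w z0‖ := by
        refine le_trans ?_ h2
        nlinarith
      linarith
    have hwj : ∀ z ∈ ball z0 r', c / 2 ≤ ‖w z j‖ := by
      intro z hz
      have hzr : z ∈ ball z0 r := ball_subset_ball (min_le_left _ _) hz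
      have hmaps : Set.MapsTo (fun z => w z j) (ball z0 r) (ball (w z0 j) B) := by
        intro z' hz'
        rw [mem_ball, dist_eq_norm]
        calc ‖w z' j - w z0 j‖ ≤ ‖w z' j‖ + ‖w z0 j‖ := norm_sub_le _ _
          _ ≤ K * C + K * C := add_le_add (hwle z' hz' j) (hwle z0 hz0 j)
          _ < B := by rw [hB]; linarith
      have h1 := Complex.dist_le_div_mul_dist_of_mapsTo_ball (hwhol j)
        (hmaps.mono_right ball_subset_closedBall) hzr
      have h2 : dist z z0 ≤ c * r / (2 * B) :=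
        (mem_ball.1 hz).le.trans (min_le_right _ _)
      have h3 : dist (w z j) (w z0 j) ≤ c / 2 := by
        refine h1.trans ?_
        calc B / r * dist z z0 ≤ B / r * (c * r / (2 * B)) :=
              mul_le_mul_of_nonneg_left h2 (by positivity)
          _ = c / 2 := by field_simp
      rw [dist_eq_norm] at h3
      have h4 : ‖w z0 j‖ ≤ ‖w z j‖ + ‖w z j - w z0 j‖ := by
        have := norm_sub_le (w z j) (w z j - w z0 j)
        rwa [sub_sub_cancel] at this
      linarith
    have hne : ∀ z ∈ ball z0 r', w z j ≠ 0 := by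
      intro z hz h0
      have h1 := hwj z hz
      rw [h0, norm_zero] at h1
      linarith
    have hsub : ball z0 r' ⊆ ball z0 r := ball_subset_ball (min_le_left _ _)
    refine ⟨j, fun z hz => ?_, fun z hz k => ?_, fun k => ?_⟩
    · rw [hw z (hsub hz), Pi.smul_apply, smul_eq_mul]
      exact mul_ne_zero (hi.ne z (hsub hz)) (hne z hz)
    · rw [hw z (hsub hz), Pi.smul_apply, Pi.smul_apply, smul_eq_mul, smul_eq_mul, norm_mul,
        norm_mul]
      have h1 := hwle z (hsub hz) k
      have h2 := hwj z hz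
      have h3 : ‖w z k‖ ≤ 2 * (K * C) / c * ‖w z j‖ := by
        calc ‖w z k‖ ≤ K * C := h1
          _ = 2 * (K * C) / c * (c / 2) := by field_simp
          _ ≤ 2 * (K * C) / c * ‖w z j‖ := mul_le_mul_of_nonneg_left h2 (by positivity)
      calc ‖f z i‖ * ‖w z k‖ ≤ ‖f z i‖ * (2 * (K * C) / c * ‖w z j‖) :=
            mul_le_mul_of_nonneg_left h3 (norm_nonneg _)
        _ = 2 * (K * C) / c * (‖f z i‖ * ‖w z j‖) := by ring
    · have h1 : DifferentiableOn ℂ (fun z => w z k / w z j) (ball z0 r') :=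
        ((hwhol k).mono hsub).div ((hwhol j).mono hsub) hne
      refine h1.congr fun z hz => ?_
      rw [hw z (hsub hz), Pi.smul_apply, Pi.smul_apply, smul_eq_mul, smul_eq_mul]
      exact mul_div_mul_left _ _ (hi.ne z (hsub hz))
  · rw [← h]
    exact hev z
  · obtain ⟨a, ha⟩ := hcon z
    refine ⟨a, hφ ?_⟩
    rw [map_smul]
    exact ha

end Pool.Agent.H8.UGC
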