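import Pool.Agent.H28.UGC.Start

/-!
# Block C, C7: start of the induction
-/

set_option autoImplicit false

namespace Pool.Agent.H8.UGC

theorem startS (hmap : MapS) (hzero : ZeroS) (hcone : ConeS) : StartS :=
  Pool.Agent.H28.UGC.start hmap hzero hcone

end Pool.Agent.H8.UGC
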