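import Pool.Agent.H8.UGC.Stm

/-!
# Block C: assembly
-/

set_option autoImplicit false

open MvPolynomial

namespace Pool.Agent.H8.UGC

open Pool.Agent.H47.KB

theorem geo_step (hstep : StepS) (hpi : PiS) (hspn : SpnS) (hmap : MapS) (hzero : ZeroS)
    (hcone : ConeS) {r e : ℕ} (W : Submodule ℂ (Vd (r + 1) (e + 1))) (hW : W ≠ ⊥)
    (hWZ : ∀ w ∈ W, w ∈ cl (Bad (r + 1) (e + 1)) → w = 0) :
    ∃ W' : Submodule ℂ (Vd r (e + 1)), Module.finrank ℂ W' = Module.finrank ℂ W + 1 ∧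
      ∀ w ∈ W', w ∈ cl (Bad r (e + 1)) → w = 0 := by
  classical
  have hex := fun (l : Fin (r + 2) → ℂ) (hl : l ≠ 0) => hpi r e l hl
  choose! π φ hφ hφ0 hev hsurj hker using hex
  refine hstep _ _ _ _ (mm r e) π hker ⟨r + 2, fun i => Pi.single i 1, fun i => ?_, hspn r e⟩
    (cl (Bad (r + 1) (e + 1))) (cl (Bad r (e + 1))) (ZC_cl _) (cl_cone (hcone _ _))
    (cl_cone (hcone _ _)) (subset_cl _ (hzero _ _)) ?_ W hW hWZ
  · intro h
    have h1 : (Pi.single i 1 : Fin (r + 2) → ℂ) i = 0 := congrFun h i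
    rw [Pi.single_eq_same] at h1
    exact one_ne_zero h1
  · intro l hl
    refine preimage_cl (π l) (hsurj l hl) fun F hF => ?_
    obtain ⟨f, hf, hc, z, hz⟩ := hF
    obtain ⟨h1, h2⟩ := hmap _ _ (φ l) (hφ l hl) _ _ (hev l hl F) f hf hc
    exact ⟨_, h1, h2, z, by rw [hz, hφ0 l hl]⟩

theorem blockC (hstep : StepS) (hpi : PiS) (hspn : SpnS) (hmap : MapS) (hzero : ZeroS)
    (hcone : ConeS) (hstart : StartS) (hfin : FinishS) : BlockC := by
  intro n d hd h
  obtain ⟨e, rfl⟩ : ∃ e, d = e + 1 := ⟨d - 1, by omega⟩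
  have key : ∀ j : ℕ, ∀ r : ℕ, r + j = 2 * n → ∃ W : Submodule ℂ (Vd r (e + 1)),
      Module.finrank ℂ W = j + 1 ∧ ∀ w ∈ W, w ∈ cl (Bad r (e + 1)) → w = 0 := by
    intro j
    induction j with
    | zero =>
      intro r hr
      obtain rfl : r = 2 * n := by omega
      exact hstart _ _ hd h
    | succ j ih =>
      intro r hr
      obtain ⟨W, h1, h2⟩ := ih (r + 1) (by omega)
      obtain ⟨W', h3, h4⟩ := geo_step hstep hpi hspn hmap hzero hcone W (by
        rintro rfl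
        rw [finrank_bot] at h1
        omega) h2
      exact ⟨W', by omega, h4⟩
  obtain ⟨W, h1, h2⟩ := key n n (by omega)
  exact hfin n _ hd W (by omega) h2

end Pool.Agent.H8.UGC
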