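import Pool.Agent.H47.KB.Defs

/-!
# Brody curves in charts and the Green-Griffiths-Lang property for them

A curve in projective space is given by arbitrary representatives `f z`; only its local quotients are
holomorphic.
-/

set_option autoImplicit false

open MvPolynomial Metric

namespace Pool.Agent.H8.UGC

open Pool.Agent.H47.KB

/-- On the ball of radius `r` around `z0` the coordinate `i` of the curve is not zero, the quotients of the
other coordinates by it are holomorphic and bounded by `C`. -/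
structure Ch {n : ℕ} (f : ℂ → Vec n) (r C : ℝ) (z0 : ℂ) (i : Fin (n + 2)) : Prop where
  ne : ∀ z ∈ ball z0 r, f z i ≠ 0
  le : ∀ z ∈ ball z0 r, ∀ j, ‖f z j‖ ≤ C * ‖f z i‖
  hol : ∀ j, DifferentiableOn ℂ (fun z => f z j / f z i) (ball z0 r)

/-- Curves with charts of uniform size and bound (that is, with bounded derivative) in `{F = 0}`. -/
def BrodyC {n : ℕ} (F : Frm n) (f : ℂ → Vec n) : Prop :=
  (∃ r : ℝ, 0 < r ∧ ∃ C : ℝ, ∀ z0 : ℂ, ∃ i, Ch f r C z0 i) ∧ ∀ z, eval (f z) F = 0

/-- A polynomial `Q` in the coefficients and the coordinates vanishes on all Brody curves in hypersurfaces of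
degree `d` in `ℙ^{n+1}`, but not on the universal hypersurface. -/
def GGLC (n d : ℕ) : Prop :=
  ∃ Q : Fam n, (∃ (F : Frm n) (p : Vec n), F.IsHomogeneous d ∧ p ≠ 0 ∧ eval p F = 0 ∧ eval p (spec Q F) ≠ 0) ∧
    ∀ F : Frm n, F.IsHomogeneous d → ∀ f : ℂ → Vec n, BrodyC F f → ¬ IsConst f →
      ∀ z, eval (f z) (spec Q F) = 0

end Pool.Agent.H8.UGC
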