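import Pool.Agent.H8.UGC.All0
import Pool.Agent.H8.UGC.Bmap8
import Pool.Agent.H8.UGC.Start

/-!
# Block C: Green-Griffiths-Lang in dimension `2n` implies hyperbolicity in dimension `n`
-/

set_option autoImplicit false

namespace Pool.Agent.H8.UGC

open Pool.Agent.H47.KB

theorem blockC_holds : BlockC :=
  blockC_of mapS resS (startS mapS zero_mem_Bad Bad_cone)

/-- If all Brody curves in hypersurfaces of degree `d` and dimension `2n` satisfy one algebraic equation
which is not satisfied on the universal hypersurface, then general hypersurfaces of degree `d` and dimension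
`n` contain no non constant entire curves. -/
theorem hyp_of_gglc (n d : ℕ) (hd : 1 ≤ d) (h : GGLC (2 * n) d) : Hyp n d :=
  blockC_holds n d hd h

end Pool.Agent.H8.UGC
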