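import Pool.Agent.H8.UGC.All
import Pool.Agent.H13.UGK.FinK

/-!
# Block C in the codimension form of helper13
-/

set_option autoImplicit false

namespace Pool.Agent.H8.UGC

open Pool.Agent.H47.KB

theorem hypK_of_gglc (n k d : ℕ) (hd : 1 ≤ d) (h : GGLC (2 * n + k) d) :
    Pool.Agent.H13.UGK.HypK n k d :=
  Pool.Agent.H13.UGK.blockCK stepS (fun _ _ l hl => exists_pi l hl) mm_span mapS zero_mem_Bad Bad_cone
    (startS mapS zero_mem_Bad Bad_cone) dimS traS resS n k d hd h

end Pool.Agent.H8.UGC
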