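import Pool.Agent.H8.UGC.Hpl
import Pool.Agent.H8.UGC.AllK

/-!
# Block C with dimension `2 n - 1 + k`
-/

set_option autoImplicit false

open MvPolynomial Module

namespace Pool.Agent.H8.UGC

open Pool.Agent.H47.KB Pool.Agent.H8.RK Pool.Agent.H13.UGK

theorem finishK2 (n k d : ℕ) (hd : 1 ≤ d) (W : Submodule ℂ (Vd n d)) (hW : n + k ≤ finrank ℂ W)
    (hWZ : ∀ w ∈ W, w ∈ cl (Bad n d) → w = 0) : HypK n k d := by
  classical
  set Bf : Set (Sd n d) := {F | ∃ g : ℂ → Vec n, BrodyC F.1 g ∧ ¬ IsConst g} with hBf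
  have hcard : Fintype.card (Mon (n + 2) d) = finrank ℂ (Sd n d) :=
    (finrank_eq_card_basis (bs n d)).symm
  have hBc : ∀ t : ℂ, ∀ F ∈ Bf, t • F ∈ Bf := by
    rintro t F ⟨g, hg, hc⟩
    refine ⟨g, ⟨hg.1, fun z => ?_⟩, hc⟩
    have h1 := hg.2 z
    rw [Submodule.coe_smul, smul_eval, h1, mul_zero]
  refine ⟨Pool.Agent.H31.UG.idl (bs n d) Bf, Pool.Agent.H31.UG.idl_hom (bs n d) hBc, ?_, ?_⟩
  · -- the dimension
    have hk : n + finrank ℂ (Vd n d) + (k + 1) ≤ finrank ℂ (Sd n d) + finrank ℂ W := by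
      have h1 := finrank_Vd (n := n) hd
      omega
    have hWle : finrank ℂ W ≤ finrank ℂ (Vd n d) := Submodule.finrank_le W
    set e : ℕ := n + finrank ℂ (Vd n d) - finrank ℂ W with he
    have hmain : ringKrullDim (MvPolynomial (Mon (n + 2) d) ℂ ⧸
        Pool.Agent.H31.UG.idl (bs n d) Bf) ≤ (e : WithBot ℕ∞) := by
      refine dim_quot_le _ _ fun P hP hIP => ?_
      let J : {i : Fin (n + 2) // i ≠ Fin.last (n + 1)} →
          Ideal (MvPolynomial (Mon (n + 2) d) ℂ) := fun i =>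
        Pool.Agent.H31.UG.idl (bs n d) {F | ∃ a : Par i.1, ∃ z ∈ cl (Bad n d), F = tt2 i.1 (a, z)}
      have hJ : (Finset.univ.inf J) ≤ P := by
        refine le_trans ?_ hIP
        intro Q hQ F hF
        obtain ⟨g, hg, hc⟩ := hF
        obtain ⟨i, hi, q, hq1, hql, hq, hG⟩ := exists_hyp_point F hg hc
        have hQi : Q ∈ J ⟨i, hi⟩ :=
          (Finset.inf_le (f := J) (Finset.mem_univ (⟨i, hi⟩ : {i : Fin (n + 2) //
            i ≠ Fin.last (n + 1)}))) hQ
        exact hQi F ⟨fun k => q k.1, gg2 i F q hq, hG, (tt2_gg2 i hi F q hq hq1 hql).symm⟩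
      obtain ⟨i, -, hi⟩ := (Ideal.IsPrime.inf_le' hP).1 hJ
      refine dim_image (A := Par i.1) (V := Vd n d) (bs n d) ((zc_iff _).1 (ZC_cl (Bad n d)))
        (cl_cone (Bad_cone n d)) W (fun z hz hw => hWZ z hw hz) (polyMap_to (tt2_poly i.1)) e ?_
        P hP ?_
      · rw [finrank_par i.1 i.2]
        omega
      · intro Q hQ
        apply hi
        rintro F ⟨a, z, hz, rfl⟩
        exact hQ a z hz
    rw [hcard]
    calc ringKrullDim (MvPolynomial (Mon (n + 2) d) ℂ ⧸ Pool.Agent.H31.UG.idl (bs n d) Bf) +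
          ((k + 1 : ℕ) : WithBot ℕ∞) ≤ (e : WithBot ℕ∞) + ((k + 1 : ℕ) : WithBot ℕ∞) :=
          add_le_add_left hmain _
      _ = ((e + (k + 1) : ℕ) : WithBot ℕ∞) := by push_cast; rfl
      _ ≤ ((finrank ℂ (Sd n d) : ℕ) : WithBot ℕ∞) := by
          have : e + (k + 1) ≤ finrank ℂ (Sd n d) := by omega
          exact_mod_cast this
  · -- the forms outside
    rintro F hF ⟨f, hf, hne⟩ g hg hg0 hgF
    have h1 : ∀ g : ℂ → Vec n, BrodyC F g → IsConst g := by
      intro g' hg'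
      by_contra hc
      exact hne (hf ⟨F, (mem_homogeneousSubmodule _ _).2 hF⟩ ⟨g', hg', hc⟩)
    exact const_of_no_brodyC hF h1 g ⟨hg, hg0, hgF⟩

/-- Green-Griffiths-Lang for Brody curves in dimension `2 n - 1 + k` implies that the
non-hyperbolic forms of dimension `n` have codimension greater than `k`. -/
theorem hypK_of_gglc' (n k d : ℕ) (hn : 1 ≤ n) (hd : 1 ≤ d) (h : GGLC (2 * n - 1 + k) d) :
    HypK n k d := by
  obtain ⟨e, rfl⟩ : ∃ e, d = e + 1 := ⟨d - 1, by omega⟩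
  have key : ∀ j : ℕ, ∀ r : ℕ, r + j = 2 * n - 1 + k → ∃ W : Submodule ℂ (Vd r (e + 1)),
      finrank ℂ W = j + 1 ∧ ∀ w ∈ W, w ∈ cl (Bad r (e + 1)) → w = 0 := by
    intro j
    induction j with
    | zero =>
      intro r hr
      obtain rfl : r = 2 * n - 1 + k := by omega
      exact startS mapS zero_mem_Bad Bad_cone _ _ hd h
    | succ j ih =>
      intro r hr
      obtain ⟨W, h1, h2⟩ := ih (r + 1) (by omega)
      obtain ⟨W', h3, h4⟩ := geo_step stepS (fun _ _ l hl => exists_pi l hl) mm_span mapS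
        zero_mem_Bad Bad_cone W (by
          rintro rfl
          rw [finrank_bot] at h1
          omega) h2
      exact ⟨W', by omega, h4⟩
  obtain ⟨W, h1, h2⟩ := key (n - 1 + k) n (by omega)
  exact finishK2 n k _ hd W (by omega) h2

end Pool.Agent.H8.UGC
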