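import Pool.Agent.H8.UGC.Zar
import Pool.Agent.H8.UGC.BDefs2

/-!
# Block C: the spaces of forms through a point and the bad forms
-/

set_option autoImplicit false

open MvPolynomial

noncomputable section

namespace Pool.Agent.H8.UGC

open Pool.Agent.H47.KB

/-- the point `(1, 0, .., 0)` -/
def e0 (r : ℕ) : Vec r := Pi.single 0 1

/-- forms of degree `d` -/
abbrev Sd (r d : ℕ) : Submodule ℂ (Frm r) := homogeneousSubmodule (Fin (r + 2)) ℂ d

/-- forms of degree `d` vanishing at the point `e0` -/
def Vd (r d : ℕ) : Submodule ℂ (Frm r) :=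
  Sd r d ⊓ LinearMap.ker (aeval (R := ℂ) (e0 r)).toLinearMap

theorem mem_Vd {r d : ℕ} {F : Frm r} : F ∈ Vd r d ↔ F.IsHomogeneous d ∧ eval (e0 r) F = 0 := by
  unfold Vd
  rw [Submodule.mem_inf, mem_homogeneousSubmodule, LinearMap.mem_ker]
  rfl

instance finite_Sd (r d : ℕ) : Module.Finite ℂ (Sd r d) := by
  have h1 : Sd r d ≤ restrictTotalDegree (Fin (r + 2)) ℂ d := by
    intro F hF
    rw [mem_restrictTotalDegree]
    exact ((mem_homogeneousSubmodule _ _).1 hF).totalDegree_le
  exact Module.Finite.of_injective (Submodule.inclusion h1) (Submodule.inclusion_injective h1)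

instance finite_Vd (r d : ℕ) : Module.Finite ℂ (Vd r d) :=
  Module.Finite.of_injective (Submodule.inclusion (inf_le_left : Vd r d ≤ Sd r d))
    (Submodule.inclusion_injective _)

/-- forms with a non constant Brody curve through `e0` -/
def Bad (r d : ℕ) : Set (Vd r d) :=
  {F | ∃ f : ℂ → Vec r, BrodyC F.1 f ∧ ¬ IsConst f ∧ ∃ z, f z = e0 r}

/-- the linear form `∑ l_i X_(i+1)` -/
def lf {r : ℕ} (l : Fin (r + 2) → ℂ) : Frm (r + 1) := ∑ i, C (l i) * X i.succ

/-- multiplication of a form of degree `e` with a linear form vanishing at `e0` -/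
def mm (r e : ℕ) : (Fin (r + 2) → ℂ) →ₗ[ℂ] Sd (r + 1) e →ₗ[ℂ] Vd (r + 1) (e + 1) :=
  LinearMap.mk₂ ℂ (fun l G => ⟨lf l * G.1, by
    rw [mem_Vd]
    constructor
    · have h1 : (lf l).IsHomogeneous 1 := by
        refine IsHomogeneous.sum _ _ _ fun i _ => ?_
        have := (isHomogeneous_C (Fin (r + 3)) (l i)).mul (isHomogeneous_X ℂ i.succ)
        rwa [zero_add] at this
      have h2 := h1.mul ((mem_homogeneousSubmodule _ _).1 G.2)
      have h3 : 1 + e = e + 1 := add_comm 1 e
      rw [h3] at h2
      exact h2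
    · rw [map_mul]
      have h0 : eval (e0 (r + 1)) (lf l) = 0 := by
        unfold lf e0
        rw [map_sum]
        refine Finset.sum_eq_zero fun i _ => ?_
        simp
      rw [h0, zero_mul]⟩)
    (by
      intro l l' G
      apply Subtype.ext
      simp only [Submodule.coe_add, lf, Pi.add_apply, map_add, add_mul, Finset.sum_add_distrib])
    (by
      intro c l G
      apply Subtype.ext
      simp only [Submodule.coe_smul, lf, Pi.smul_apply, smul_eq_mul, map_mul, smul_eq_C_mul]
      rw [← mul_assoc, Finset.mul_sum]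
      simp only [mul_assoc])
    (by
      intro l G G'
      apply Subtype.ext
      simp only [Submodule.coe_add, mul_add])
    (by
      intro c l G
      apply Subtype.ext
      simp only [Submodule.coe_smul, mul_smul_comm])

theorem mm_val {r e : ℕ} (l : Fin (r + 2) → ℂ) (G : Sd (r + 1) e) :
    (mm r e l G).1 = lf l * G.1 := rfl

end Pool.Agent.H8.UGC

end
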