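import Pool.Agent.H8.UGC.Tra2
import Pool.Agent.H8.UGC.Bmap8
import Pool.Agent.H31.UG.Bridge

/-!
# Block C: a bad point on the hyperplane `x_last = 0`
-/

set_option autoImplicit false

open MvPolynomial Metric

namespace Pool.Agent.H8.UGC

open Pool.Agent.H47.KB

/-- the cone of a curve -/
def Cn {n : ℕ} (f : ℂ → Vec n) : Set (Vec n) := {v | ∃ (c : ℂ) (z : ℂ), v = c • f z}

theorem hp_ne {n : ℕ} {F : Frm n} {f : ℂ → Vec n} (hf : BrodyC F f) (z : ℂ) : f z ≠ 0 := by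
  obtain ⟨⟨r, hr, C, hch⟩, -⟩ := hf
  obtain ⟨i, hi⟩ := hch z
  intro h
  exact hi.ne z (mem_ball_self hr) (by rw [h]; rfl)

/-- the quotients of the coordinates by a coordinate without zeros are continuous -/
theorem hp_cont {n : ℕ} {F : Frm n} {f : ℂ → Vec n} (hf : BrodyC F f) (l : Fin (n + 2))
    (hl : ∀ z, f z l ≠ 0) (j : Fin (n + 2)) : Continuous fun z => f z j / f z l := by
  obtain ⟨⟨r, hr, C, hch⟩, -⟩ := hf
  rw [continuous_iff_continuousAt]
  intro z0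
  obtain ⟨i, hi⟩ := hch z0
  have h1 : ContinuousAt (fun z => f z j / f z i) z0 :=
    (hi.hol j).continuousOn.continuousAt (ball_mem_nhds z0 hr)
  have h2 : ContinuousAt (fun z => f z l / f z i) z0 :=
    (hi.hol l).continuousOn.continuousAt (ball_mem_nhds z0 hr)
  have h3 : f z0 l / f z0 i ≠ 0 := div_ne_zero (hl z0) (hi.ne z0 (mem_ball_self hr))
  refine (h1.div h2 h3).congr ?_
  filter_upwards [ball_mem_nhds z0 hr] with z hz
  have h4 := hi.ne z hz
  have h5 := hl z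
  show (f z j / f z i) / (f z l / f z i) = f z j / f z l
  field_simp

/-- the closed cone of a non constant curve meets the hyperplane `x_last = 0` -/
theorem exists_cone_point {n : ℕ} {F : Frm n} {f : ℂ → Vec n} (hf : BrodyC F f) (hc : ¬ IsConst f) :
    ∃ v ∈ cl (Cn f), v (Fin.last (n + 1)) = 0 ∧ v ≠ 0 := by
  by_contra hcon
  push Not at hcon
  apply hc
  set l : Fin (n + 2) := Fin.last (n + 1) with hl
  have hcone : ∀ c : ℂ, ∀ z ∈ cl (Cn f), c • z ∈ cl (Cn f) := by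
    refine cl_cone ?_
    rintro c _ ⟨c', z, rfl⟩
    exact ⟨c * c', z, by rw [smul_smul]⟩
  have hmem : ∀ z, f z ∈ cl (Cn f) := fun z => subset_cl _ ⟨1, z, by rw [one_smul]⟩
  let W : Submodule ℂ (Vec n) := LinearMap.ker (LinearMap.proj l : Vec n →ₗ[ℂ] ℂ)
  have hW : ∀ w, w ∈ W ↔ w l = 0 := fun w => LinearMap.mem_ker
  let u : Vec n := Pi.single l 1
  have hu : u l = 1 := Pi.single_eq_same _ _
  have hfin := finite_fibre (cl (Cn f)) (ZC_cl _) hcone W
    (fun w hw hwY => hcon w hwY ((hW w).1 hw)) u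
  have hfl : ∀ z, f z l ≠ 0 := fun z h => hp_ne hf z (hcon _ (hmem z) h)
  have hz : ∀ z, (f z l)⁻¹ • f z - u ∈ {w : Vec n | w ∈ W ∧ u + w ∈ cl (Cn f)} := by
    intro z
    refine ⟨(hW _).2 ?_, ?_⟩
    · rw [Pi.sub_apply, Pi.smul_apply, smul_eq_mul, inv_mul_cancel₀ (hfl z), hu, sub_self]
    · rw [add_sub_cancel]
      exact hcone _ _ (hmem z)
  have hconst : ∀ j z, f z j / f z l = f 0 j / f 0 l := by
    intro j
    let T : Set ℂ := (fun w : Vec n => w j + u j) '' {w : Vec n | w ∈ W ∧ u + w ∈ cl (Cn f)}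
    have hT : T.Finite := hfin.image _
    have hmaps : ∀ z, f z j / f z l ∈ T := by
      intro z
      refine ⟨_, hz z, ?_⟩
      show ((f z l)⁻¹ • f z - u) j + u j = _
      rw [Pi.sub_apply, Pi.smul_apply, smul_eq_mul, sub_add_cancel, div_eq_inv_mul]
    obtain ⟨y, -, hy⟩ := isPreconnected_univ.eqOn_const_of_mapsTo (T := T) hT.isDiscrete
      (hp_cont hf l hfl j).continuousOn (fun z _ => hmaps z) ⟨_, hmaps 0⟩
    intro z
    exact (hy (Set.mem_univ z)).trans (hy (Set.mem_univ 0)).symm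
  intro z
  refine ⟨f z l / f 0 l, ?_⟩
  funext j
  rw [Pi.smul_apply, smul_eq_mul]
  have h1 := hconst j z
  rw [div_eq_div_iff (hfl z) (hfl 0)] at h1
  have h2 := hfl 0
  field_simp
  linear_combination h1

/-- `F` moved, as a polynomial map of the point -/
noncomputable def mvF {n d : ℕ} (i : Fin (n + 2)) (F : Sd n d) (p : Vec n) : Sd n d :=
  ⟨sb2 (mv2 i p) F.1, (mem_homogeneousSubmodule _ _).2
    (sb2_hom _ ((mem_homogeneousSubmodule _ _).1 F.2))⟩

theorem mvF_val {n d : ℕ} (i : Fin (n + 2)) (F : Sd n d) (p : Vec n) :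
    (mvF i F p).1 = sb2 (mv2 i p) F.1 := rfl

theorem mvF_poly {n d : ℕ} (i : Fin (n + 2)) (F : Sd n d) : PolyMap (mvF i F) := by
  refine polyMap_of_eval _ (1 + d) fun y => ?_
  have h1 : (fun p => eval y (mvF i F p).1) = fun p : Vec n => eval (mv2 i p y) F.1 := by
    funext p
    rw [mvF_val]
    exact sb2_eval (mv2 i p) F.1 y
  rw [h1]
  exact subst_mem (V := Vec n) (fun _ => F.1) (fun _ => (mem_homogeneousSubmodule _ _).1 F.2)
    (fun σ => const_mem_PD (coeff σ F.1) 1) (fun p => mv2 i p y) (fun j => mv2_mem i y j)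

theorem hp_evalF {n d : ℕ} (F : Sd n d) {f : ℂ → Vec n} (h0 : ∀ z, eval (f z) F.1 = 0) :
    ∀ v ∈ cl (Cn f), eval v F.1 = 0 := by
  intro v hv
  refine hv (fun v => eval v F.1) ⟨1 + d, ?_⟩ ?_
  · exact subst_mem (fun _ : Vec n => F.1) (fun _ => (mem_homogeneousSubmodule _ _).1 F.2)
      (fun σ => const_mem_PD _ _) (fun p => p)
      fun j => lin_mem_PD (LinearMap.proj j : Vec n →ₗ[ℂ] ℂ) le_rfl
  · rintro _ ⟨c, z, rfl⟩
    rw [bm_eval_smul ((mem_homogeneousSubmodule _ _).1 F.2), h0, mul_zero]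

/-- moved forms are bad at the points of the curve -/
theorem gg2_mem_Bad {n d : ℕ} (i : Fin (n + 2)) (F : Sd n d) {f : ℂ → Vec n}
    (hf : BrodyC F.1 f) (hc : ¬ IsConst f) (c z : ℂ) (hi : (c • f z) i ≠ 0)
    (hp : eval (c • f z) F.1 = 0) : gg2 i F (c • f z) hp ∈ Bad n d := by
  have hc0 : c ≠ 0 := by
    rintro rfl
    exact hi (by rw [zero_smul]; rfl)
  obtain ⟨h1, h2⟩ := resS n d F.1 ((mem_homogeneousSubmodule _ _).1 F.2) f hf hc (fun _ => c)
    fun _ => hc0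
  let E : Vec n ≃ₗ[ℂ] Vec n := LinearEquiv.ofInjectiveEndo (mv2 i (c • f z)) (mv2_inj i _ hi)
  have hE : ∀ x, mv2 i (c • f z) (E.symm x) = x := fun x => E.apply_symm_apply x
  obtain ⟨h3, h4⟩ := mapS n n E.symm.toLinearMap E.symm.injective (sb2 (mv2 i (c • f z)) F.1) F.1
    (fun x => by
      rw [sb2_eval]
      change _ = eval (mv2 i (c • f z) (E.symm x)) F.1
      rw [hE]) _ h1 h2
  refine ⟨_, h3, h4, z, ?_⟩
  show E.symm (c • f z) = e0 n
  rw [LinearEquiv.symm_apply_eq]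
  exact (mv2_e0 i (c • f z)).symm

/-- every bad form is moved to the closure of the bad forms by a point of the hyperplane
`x_last = 0` -/
theorem exists_hyp_point {n d : ℕ} (F : Sd n d) {f : ℂ → Vec n} (hf : BrodyC F.1 f)
    (hc : ¬ IsConst f) : ∃ i : Fin (n + 2), i ≠ Fin.last (n + 1) ∧ ∃ q : Vec n, q i = 1 ∧
      q (Fin.last (n + 1)) = 0 ∧ ∃ hq : eval q F.1 = 0, gg2 i F q hq ∈ cl (Bad n d) := by
  obtain ⟨v, hv, hvl, hv0⟩ := exists_cone_point hf hc
  obtain ⟨i, hi⟩ : ∃ i, v i ≠ 0 := by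
    by_contra h
    push Not at h
    exact hv0 (funext h)
  have hil : i ≠ Fin.last (n + 1) := by
    rintro rfl
    exact hi hvl
  have hcone : ∀ c : ℂ, ∀ z ∈ cl (Cn f), c • z ∈ cl (Cn f) := by
    refine cl_cone ?_
    rintro c _ ⟨c', z, rfl⟩
    exact ⟨c * c', z, by rw [smul_smul]⟩
  have hqY : (v i)⁻¹ • v ∈ cl (Cn f) := hcone _ _ hv
  have hq1 : ((v i)⁻¹ • v) i = 1 := by
    rw [Pi.smul_apply, smul_eq_mul, inv_mul_cancel₀ hi]
  refine ⟨i, hil, (v i)⁻¹ • v, hq1, ?_, hp_evalF F hf.2 _ hqY, ?_⟩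
  · rw [Pi.smul_apply, hvl, smul_zero]
  · intro h hh hBad
    have hle : Vd n d ≤ Sd n d := inf_le_left
    obtain ⟨π, hπ⟩ := LinearMap.exists_leftInverse_of_injective (Submodule.inclusion hle)
      (LinearMap.ker_eq_bot.2 (Submodule.inclusion_injective hle))
    have hπ' : ∀ G : Vd n d, π (Submodule.inclusion hle G) = G := fun G =>
      congrArg (fun L : Vd n d →ₗ[ℂ] Vd n d => L G) hπ
    have hP : IsPoly ((fun p : Vec n => p i) * fun p : Vec n => h (π (mvF i F p))) := by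
      refine IsPoly.mul (IsPoly.lin (LinearMap.proj i : Vec n →ₗ[ℂ] ℂ)) ?_
      exact IsPoly.comp (mvF_poly i F) (IsPoly.comp (polyMap_lin π) hh)
    have h1 := hqY _ hP (by
      rintro _ ⟨c, z, rfl⟩
      rw [Pi.mul_apply]
      by_cases h0 : (c • f z) i = 0
      · rw [h0, zero_mul]
      · have hp : eval (c • f z) F.1 = 0 := by
          rw [bm_eval_smul ((mem_homogeneousSubmodule _ _).1 F.2), hf.2, mul_zero]
        have h2 := hBad _ (gg2_mem_Bad i F hf hc c z h0 hp)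
        have h3 : π (mvF i F (c • f z)) = gg2 i F (c • f z) hp := hπ' (gg2 i F (c • f z) hp)
        rw [h3, h2, mul_zero])
    rw [Pi.mul_apply, hq1, one_mul] at h1
    have h3 : π (mvF i F ((v i)⁻¹ • v)) = gg2 i F ((v i)⁻¹ • v) (hp_evalF F hf.2 _ hqY) :=
      hπ' (gg2 i F ((v i)⁻¹ • v) (hp_evalF F hf.2 _ hqY))
    rw [h3] at h1
    exact h1

end Pool.Agent.H8.UGC
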