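import Pool.Agent.H8.UGC.Zar
import Pool.Agent.H8.RK.Cone

/-!
# Block C, module C2: normalisation (Z5)
-/

set_option autoImplicit false

namespace Pool.Agent.H8.UGC

open MvPolynomial

section

variable {V : Type} [AddCommGroup V] [Module ℂ V]

/-- evaluation of polynomials at linear forms, as an algebra map to the functions -/
noncomputable def evF {σ : Type} (φ : σ → V →ₗ[ℂ] ℂ) : MvPolynomial σ ℂ →ₐ[ℂ] (V → ℂ) :=
  aeval fun i => (⇑(φ i) : V → ℂ)

theorem evF_apply {σ : Type} (φ : σ → V →ₗ[ℂ] ℂ) (P : MvPolynomial σ ℂ) (v : V) :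
    evF φ P v = eval (fun i => φ i v) P := by
  unfold evF
  induction P using MvPolynomial.induction_on with
  | C a => simp
  | add p q hp hq => rw [map_add, Pi.add_apply, hp, hq, map_add]
  | mul_X p i hp => rw [map_mul, Pi.mul_apply, hp, map_mul, aeval_X, eval_X]

theorem prod_pow_mem_PD {σ : Type} (φ : σ → V →ₗ[ℂ] ℂ) (s : σ →₀ ℕ) :
    (s.prod fun i k => (⇑(φ i) : V → ℂ) ^ k) ∈ PD V s.degree := by
  classical
  have h1 : ∀ (t : Finset σ), (∏ i ∈ t, (⇑(φ i) : V → ℂ) ^ s i) ∈ PD V (∑ i ∈ t, s i) := by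
    intro t
    induction t using Finset.induction_on with
    | empty =>
      rw [Finset.prod_empty, Finset.sum_empty]
      exact const_mem_PD 1 0
    | insert a t ha ih =>
      rw [Finset.prod_insert ha, Finset.sum_insert ha]
      refine mul_mem_PD ?_ ih
      unfold PD
      exact Submodule.pow_mem_pow _ (lin_mem_P1 (φ a)) _
  exact h1 s.support

/-- (L2) -/
theorem evF_mem_PD {σ : Type} (φ : σ → V →ₗ[ℂ] ℂ) (P : MvPolynomial σ ℂ) (D : ℕ)
    (hP : P.totalDegree ≤ D) : evF φ P ∈ PD V D := by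
  rw [← MvPolynomial.support_sum_monomial_coeff P, map_sum]
  refine Submodule.sum_mem _ fun s hs => ?_
  unfold evF
  rw [aeval_monomial, ← Algebra.smul_def]
  refine Submodule.smul_mem _ _ (PD_mono ?_ (prod_pow_mem_PD φ s))
  exact (MvPolynomial.le_totalDegree hs).trans hP

/-- (L1) -/
theorem exists_poly_of_mem_PD {σ : Type} (φ : σ → V →ₗ[ℂ] ℂ)
    (hφ : ∀ l : V →ₗ[ℂ] ℂ, ∃ P : MvPolynomial σ ℂ, P.totalDegree ≤ 1 ∧ (⇑l : V → ℂ) = evF φ P)
    {D : ℕ} {f : V → ℂ} (hf : f ∈ PD V D) :
    ∃ P : MvPolynomial σ ℂ, P.totalDegree ≤ D ∧ f = evF φ P := by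
  have h1 : ∀ D, PD V D ≤ (restrictTotalDegree σ ℂ D).map (evF φ).toLinearMap := by
    intro D
    induction D with
    | zero =>
      rw [PD_zero, Submodule.one_le]
      refine ⟨1, ?_, map_one (evF φ)⟩
      rw [SetLike.mem_coe, mem_restrictTotalDegree, totalDegree_one]
    | succ D ih =>
      unfold PD at ih ⊢
      rw [pow_succ, Submodule.mul_le]
      rintro x hx y hy
      obtain ⟨P, hP, rfl⟩ := ih hx
      have h2 : P1 V ≤ (restrictTotalDegree σ ℂ 1).map (evF φ).toLinearMap := by
        unfold P1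
        rw [Submodule.span_le]
        rintro g (rfl | ⟨l, rfl⟩)
        · refine ⟨1, ?_, map_one (evF φ)⟩
          rw [SetLike.mem_coe, mem_restrictTotalDegree, totalDegree_one]
          exact Nat.zero_le _
        · obtain ⟨Q, hQ, hQ'⟩ := hφ l
          refine ⟨Q, ?_, hQ'.symm⟩
          rw [SetLike.mem_coe, mem_restrictTotalDegree]
          exact hQ
      obtain ⟨Q, hQ, rfl⟩ := h2 hy
      refine ⟨P * Q, ?_, map_mul (evF φ) P Q⟩
      rw [SetLike.mem_coe, mem_restrictTotalDegree] at hP hQ ⊢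
      exact (totalDegree_mul P Q).trans (add_le_add hP hQ)
  obtain ⟨P, hP, hP'⟩ := h1 D hf
  rw [SetLike.mem_coe, mem_restrictTotalDegree] at hP
  exact ⟨P, hP, hP'.symm⟩

end

section

variable {σ τ : Type} [Fintype σ] [DecidableEq σ]

/-- polynomials which are, modulo `I`, combinations of the reduced monomials with coefficients of
degree at most `n` in the linear forms `l` -/
def GD (I : Ideal (MvPolynomial σ ℂ)) (l : τ → MvPolynomial σ ℂ) (M n : ℕ) :
    Submodule ℂ (MvPolynomial σ ℂ) where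
  carrier := {p | ∃ a : (σ → Fin (M + 1)) → MvPolynomial τ ℂ, (∀ u, (a u).totalDegree ≤ n) ∧
    p - ∑ u, aeval l (a u) * ∏ i, (X i : MvPolynomial σ ℂ) ^ (u i : ℕ) ∈ I}
  add_mem' := by
    rintro p q ⟨a, ha, hp⟩ ⟨b, hb, hq⟩
    refine ⟨fun u => a u + b u, fun u => (totalDegree_add _ _).trans (max_le (ha u) (hb u)), ?_⟩
    have h1 := I.add_mem hp hq
    convert h1 using 1
    simp only [map_add, add_mul, Finset.sum_add_distrib]
    ring
  zero_mem' := by
    refine ⟨fun _ => 0, fun _ => by simp, ?_⟩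
    simp
  smul_mem' := by
    rintro c p ⟨a, ha, hp⟩
    refine ⟨fun u => c • a u, fun u => (totalDegree_smul_le _ _).trans (ha u), ?_⟩
    have h1 := I.mul_mem_left (C c) hp
    convert h1 using 1
    rw [mul_sub, Finset.mul_sum, smul_eq_C_mul]
    congr 1
    refine Finset.sum_congr rfl fun u _ => ?_
    rw [map_smul, smul_eq_C_mul, mul_assoc]

theorem GD_mono (I : Ideal (MvPolynomial σ ℂ)) (l : τ → MvPolynomial σ ℂ) (M : ℕ) {n n' : ℕ}
    (h : n ≤ n') : GD I l M n ≤ GD I l M n' := by
  rintro p ⟨a, ha, hp⟩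
  exact ⟨a, fun u => (ha u).trans h, hp⟩

theorem GD_of_mem (I : Ideal (MvPolynomial σ ℂ)) (l : τ → MvPolynomial σ ℂ) (M n : ℕ)
    {p : MvPolynomial σ ℂ} (hp : p ∈ I) : p ∈ GD I l M n :=
  ⟨fun _ => 0, fun _ => by simp, by simpa using hp⟩

theorem GD_mul (I : Ideal (MvPolynomial σ ℂ)) (l : τ → MvPolynomial σ ℂ) (M n : ℕ) (j : τ)
    {p : MvPolynomial σ ℂ} (hp : p ∈ GD I l M n) : l j * p ∈ GD I l M (n + 1) := by
  obtain ⟨a, ha, hp⟩ := hp
  refine ⟨fun u => X j * a u, fun u => ?_, ?_⟩
  · refine (totalDegree_mul _ _).trans ?_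
    rw [totalDegree_X, add_comm]
    exact Nat.add_le_add_right (ha u) 1
  · have h1 := I.mul_mem_left (l j) hp
    convert h1 using 1
    rw [mul_sub, Finset.mul_sum]
    congr 1
    refine Finset.sum_congr rfl fun u _ => ?_
    rw [map_mul, aeval_X, mul_assoc]

theorem mem_GD [Fintype τ] (I : Ideal (MvPolynomial σ ℂ)) (l : τ → MvPolynomial σ ℂ)
    (hI : ∀ f ∈ I, ∀ j, homogeneousComponent j f ∈ I)
    (hl : ∀ j, (l j).IsHomogeneous 1) (M : ℕ)
    (hM : ∀ i : σ, (X i : MvPolynomial σ ℂ) ^ (M + 1) ∈ I ⊔ Ideal.span (Set.range l)) :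
    ∀ (n : ℕ) (p : MvPolynomial σ ℂ), p.IsHomogeneous n → p ∈ GD I l M n := by
  classical
  -- reduction of the power of a variable
  have hred : ∀ i : σ, ∃ a ∈ I, ∃ q : τ → MvPolynomial σ ℂ, (∀ j, (q j).IsHomogeneous M) ∧
      (X i : MvPolynomial σ ℂ) ^ (M + 1) = a + ∑ j, q j * l j := by
    intro i
    obtain ⟨a, ha, b, hb, hab⟩ := Submodule.mem_sup.1 (hM i)
    obtain ⟨c, hc⟩ := Ideal.mem_span_range_iff_exists_fun.1 hb
    refine ⟨homogeneousComponent (M + 1) a, hI a ha _, fun j => homogeneousComponent M (c j),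
      fun j => homogeneousComponent_isHomogeneous _ _, ?_⟩
    have h1 : (X i : MvPolynomial σ ℂ) ^ (M + 1) =
        homogeneousComponent (M + 1) ((X i : MvPolynomial σ ℂ) ^ (M + 1)) := by
      rw [homogeneousComponent_eq_self]
      have := (isHomogeneous_X ℂ i).pow (M + 1)
      rwa [one_mul] at this
    rw [h1, ← hab, ← hc, map_add, map_sum]
    congr 1
    exact Finset.sum_congr rfl fun j _ => Pool.Agent.H8.RK.comp_mul_lin M (c j) (l j) (hl j)
  intro n
  induction n using Nat.strong_induction_on with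
  | _ n ih =>
    intro p hp
    rw [← MvPolynomial.support_sum_monomial_coeff p]
    refine Submodule.sum_mem _ fun s hs => ?_
    have hdeg : s.degree = n := by
      have h2 := hp (MvPolynomial.mem_support_iff.1 hs)
      rw [← h2, Finsupp.degree_eq_weight_one]
      rfl
    by_cases hall : ∀ i, s i < M + 1
    · refine ⟨fun u => if u = (fun i => ⟨s i, hall i⟩) then C (p.coeff s) else 0, fun u => ?_, ?_⟩
      · dsimp only
        split_ifs
        · rw [totalDegree_C]; exact Nat.zero_le _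
        · rw [totalDegree_zero]; exact Nat.zero_le _
      · have h3 : (monomial s) (p.coeff s) = C (p.coeff s) *
              ∏ i, (X i : MvPolynomial σ ℂ) ^ ((⟨s i, hall i⟩ : Fin (M + 1)) : ℕ) := by
          rw [MvPolynomial.monomial_eq, Finsupp.prod_fintype _ _ (by simp)]
        rw [Finset.sum_eq_single (fun i => ⟨s i, hall i⟩)]
        · simp only [if_true]
          rw [h3, ← algebraMap_eq, ← algebraMap_eq, AlgHom.commutes, sub_self]
          exact I.zero_mem
        · intro u _ hu
          simp only [if_neg hu, map_zero, zero_mul]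
        · intro h
          exact absurd (Finset.mem_univ _) h
    · push Not at hall
      obtain ⟨i, hi⟩ := hall
      obtain ⟨a, ha, q, hq, haq⟩ := hred i
      have h4 : (monomial s) (p.coeff s) =
          (X i : MvPolynomial σ ℂ) ^ (M + 1) *
            (monomial (s - Finsupp.single i (M + 1))) (p.coeff s) := by
        rw [MvPolynomial.X_pow_eq_monomial, MvPolynomial.monomial_mul, one_mul]
        congr 1
        rw [add_tsub_cancel_of_le]
        rw [Finsupp.single_le_iff]
        exact hi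
      have h6 : (s - Finsupp.single i (M + 1)).degree + (M + 1) = n := by
        rw [← hdeg]
        have h7 : s - Finsupp.single i (M + 1) + Finsupp.single i (M + 1) = s := by
          rw [tsub_add_cancel_of_le]
          rw [Finsupp.single_le_iff]
          exact hi
        conv_rhs => rw [← h7]
        rw [map_add, Finsupp.degree_single]
      rw [h4, haq, add_mul, Finset.sum_mul]
      refine Submodule.add_mem _ (GD_of_mem I l M n (I.mul_mem_right _ ha)) ?_
      refine Submodule.sum_mem _ fun j _ => ?_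
      have h8 := ih (M + (s - Finsupp.single i (M + 1)).degree) (by omega)
        (q j * (monomial (s - Finsupp.single i (M + 1))) (p.coeff s))
        ((hq j).mul (isHomogeneous_monomial _ rfl))
      have h9 := GD_mul I l M _ j h8
      have h10 := GD_mono I l M (show M + (s - Finsupp.single i (M + 1)).degree + 1 ≤ n by omega) h9
      convert h10 using 1
      ring

end

theorem eval_scale {σ : Type} {H : MvPolynomial σ ℂ} {j : ℕ} (hH : H.IsHomogeneous j) (t : ℂ)
    (x : σ → ℂ) : eval (fun i => t * x i) H = t ^ j * eval x H := by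
  rw [eval_eq, eval_eq, Finset.mul_sum]
  refine Finset.sum_congr rfl fun s hs => ?_
  have h1 : ∑ i ∈ s.support, s i = j := by
    have h2 := hH (MvPolynomial.mem_support_iff.1 hs)
    rw [← h2, ← Finsupp.degree_apply, Finsupp.degree_eq_weight_one]
    rfl
  simp_rw [mul_pow, Finset.prod_mul_distrib, Finset.prod_pow_eq_pow_sum, h1]
  ring

/-- (Z5) normalisation of a cone `Z` which meets `W` in zero -/
theorem normal {V : Type} [AddCommGroup V] [Module ℂ V] [Module.Finite ℂ V] (Z : Set V) (hZ : ZC Z)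
    (hc : ∀ c : ℂ, ∀ z ∈ Z, c • z ∈ Z) (W : Submodule ℂ V) (hWZ : ∀ w ∈ W, w ∈ Z → w = 0) :
    ∃ (M : ℕ) (e : Fin M → V → ℂ), ∀ D, ∀ f ∈ PD V D,
      ∃ b : Fin M → (V ⧸ W) → ℂ, (∀ i, b i ∈ PD (V ⧸ W) D) ∧
        ∀ z ∈ Z, f z = ∑ i, b i (W.mkQ z) * e i z := by
  classical
  let B := Module.finBasis ℂ V
  let φ : Fin (Module.finrank ℂ V) → V →ₗ[ℂ] ℂ := fun i => B.coord i
  let B' := Module.finBasis ℂ (V ⧸ W)
  let ψ : Fin (Module.finrank ℂ (V ⧸ W)) → (V ⧸ W) →ₗ[ℂ] ℂ := fun j => B'.coord j
  -- linear forms on `V` as polynomials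
  let lin : (V →ₗ[ℂ] ℂ) → MvPolynomial (Fin (Module.finrank ℂ V)) ℂ := fun g => ∑ i, C (g (B i)) * X i
  have hlin1 : ∀ g, (lin g).IsHomogeneous 1 := by
    intro g
    refine IsHomogeneous.sum _ _ _ fun i _ => ?_
    have := (isHomogeneous_C (Fin (Module.finrank ℂ V)) (g (B i))).mul (isHomogeneous_X ℂ i)
    rwa [zero_add] at this
  have hlin2 : ∀ g v, eval (fun i => φ i v) (lin g) = g v := by
    intro g v
    conv_rhs => rw [← B.sum_repr v, map_sum]
    simp only [lin, map_sum, map_mul, eval_C, eval_X, map_smul, smul_eq_mul]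
    exact Finset.sum_congr rfl fun i _ => mul_comm _ _
  have hL1 : ∀ {D : ℕ} {f : V → ℂ}, f ∈ PD V D →
      ∃ P : MvPolynomial (Fin (Module.finrank ℂ V)) ℂ, P.totalDegree ≤ D ∧ f = evF φ P := by
    intro D f hf
    refine exists_poly_of_mem_PD φ (fun g => ⟨lin g, ?_, ?_⟩) hf
    · exact (hlin1 g).totalDegree_le
    · funext v
      rw [evF_apply, hlin2]
  let l : Fin (Module.finrank ℂ (V ⧸ W)) → MvPolynomial (Fin (Module.finrank ℂ V)) ℂ :=
    fun j => lin ((ψ j).comp W.mkQ)
  have hl : ∀ j, (l j).IsHomogeneous 1 := fun j => hlin1 _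
  have hlx : ∀ j v, eval (fun i => φ i v) (l j) = ψ j (W.mkQ v) := fun j v => hlin2 _ v
  let I : Ideal (MvPolynomial (Fin (Module.finrank ℂ V)) ℂ) :=
    { carrier := {P | ∀ z ∈ Z, eval (fun i => φ i z) P = 0}
      add_mem' := fun {a b} ha hb z hz => by rw [map_add, ha z hz, hb z hz, add_zero]
      zero_mem' := fun z _ => map_zero _
      smul_mem' := fun a b hb z hz => by rw [smul_eq_mul, map_mul, hb z hz, mul_zero] }
  have hImem : ∀ P, P ∈ I ↔ ∀ z ∈ Z, eval (fun i => φ i z) P = 0 := fun P => Iff.rfl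
  have hI : ∀ f ∈ I, ∀ j, homogeneousComponent j f ∈ I := by
    intro f hf j
    rw [hImem]
    intro z hz
    let q : Polynomial ℂ := ∑ j ∈ Finset.range (f.totalDegree + 1),
      Polynomial.C (eval (fun i => φ i z) (homogeneousComponent j f)) * Polynomial.X ^ j
    have hq : q = 0 := by
      refine Polynomial.funext fun t => ?_
      have h1 := (hImem f).1 hf (t • z) (hc t z hz)
      rw [Polynomial.eval_zero, ← h1]
      conv_rhs => rw [← sum_homogeneousComponent f, map_sum]
      simp only [q, Polynomial.eval_finsetSum, Polynomial.eval_mul, Polynomial.eval_C,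
        Polynomial.eval_pow, Polynomial.eval_X]
      refine Finset.sum_congr rfl fun k _ => ?_
      have h2 := eval_scale (homogeneousComponent_isHomogeneous k f) t (fun i => φ i z)
      have h3 : (fun i => φ i (t • z)) = fun i => t * φ i z := by
        funext i
        rw [map_smul, smul_eq_mul]
      rw [h3, h2, mul_comm]
    by_cases hj : j ∈ Finset.range (f.totalDegree + 1)
    · have h4 : q.coeff j = 0 := by rw [hq, Polynomial.coeff_zero]
      simp only [q, Polynomial.finsetSum_coeff, Polynomial.coeff_C_mul, Polynomial.coeff_X_pow] at h4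
      rw [Finset.sum_eq_single j] at h4
      · simpa using h4
      · intro k _ hk
        rw [if_neg (Ne.symm hk), mul_zero]
      · intro h
        exact absurd hj h
    · rw [Finset.mem_range, not_lt] at hj
      rw [homogeneousComponent_eq_zero j f (by omega), map_zero]
  -- Nullstellensatz
  have hrad : ∀ i, (X i : MvPolynomial (Fin (Module.finrank ℂ V)) ℂ) ∈
      (I ⊔ Ideal.span (Set.range l)).radical := by
    intro i
    rw [← vanishingIdeal_zeroLocus_eq_radical (K := ℂ), mem_vanishingIdeal_iff]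
    intro x hx
    rw [mem_zeroLocus_iff] at hx
    let v : V := B.equivFun.symm x
    have hv : (fun i => φ i v) = x := by
      funext i
      change B.repr (B.equivFun.symm x) i = x i
      have := B.equivFun.apply_symm_apply x
      exact congrFun this i
    have hvW : v ∈ W := by
      rw [← Submodule.Quotient.mk_eq_zero, ← B'.repr.map_eq_zero_iff]
      ext j
      have := hx (l j) (Ideal.mem_sup_right (Ideal.subset_span ⟨j, rfl⟩))
      rw [aeval_eq_eval, ← hv] at this
      rw [Finsupp.zero_apply]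
      have h5 : (B'.repr (Submodule.Quotient.mk v)) j = eval (fun i => φ i v) (l j) := (hlx j v).symm
      rw [h5]
      exact this
    have hvZ : v ∈ Z := by
      apply hZ
      rintro f ⟨D, hf⟩ h0
      obtain ⟨P, _, rfl⟩ := hL1 hf
      rw [evF_apply, hv]
      have := hx P (Ideal.mem_sup_left ((hImem P).2 fun z hz => by rw [← evF_apply]; exact h0 z hz))
      simpa [aeval_eq_eval] using this
    have hv0 := hWZ v hvW hvZ
    have : x = 0 := by
      rw [← hv, hv0]
      funext i
      simp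
    rw [this]
    simp
  have hM : ∃ M : ℕ, ∀ i, (X i : MvPolynomial (Fin (Module.finrank ℂ V)) ℂ) ^ (M + 1) ∈
      I ⊔ Ideal.span (Set.range l) := by
    choose m hm using hrad
    refine ⟨∑ i, m i, fun i => ?_⟩
    have h1 : m i ≤ ∑ i, m i := Finset.single_le_sum (fun _ _ => Nat.zero_le _) (Finset.mem_univ i)
    exact Ideal.pow_mem_of_pow_mem _ (hm i) (by omega)
  obtain ⟨M, hM⟩ := hM
  let E := Fin (Module.finrank ℂ V) → Fin (M + 1)
  let en : Fin (Fintype.card E) ≃ E := (Fintype.equivFin E).symm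
  refine ⟨Fintype.card E, fun t v => ∏ i, (φ i v) ^ ((en t i : Fin (M + 1)) : ℕ), fun D f hf => ?_⟩
  obtain ⟨P, hP, rfl⟩ := hL1 hf
  have hPG : P ∈ GD I l M D := by
    rw [← sum_homogeneousComponent P]
    refine Submodule.sum_mem _ fun k hk => ?_
    rw [Finset.mem_range] at hk
    exact GD_mono I l M (by omega)
      (mem_GD I l hI hl M hM k _ (homogeneousComponent_isHomogeneous k P))
  obtain ⟨a, ha, hPa⟩ := hPG
  refine ⟨fun t => evF ψ (a (en t)), fun t => evF_mem_PD ψ _ _ (ha _), fun z hz => ?_⟩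
  have h6 := (hImem _).1 hPa z hz
  rw [map_sub, sub_eq_zero, map_sum] at h6
  rw [evF_apply, h6, ← en.sum_comp]
  refine Finset.sum_congr rfl fun t _ => ?_
  rw [map_mul]
  change _ = evF ψ (a (en t)) (W.mkQ z) * ∏ i, (φ i z) ^ ((en t i : Fin (M + 1)) : ℕ)
  rw [evF_apply]
  congr 1
  · have h7 : ∀ Q : MvPolynomial (Fin (Module.finrank ℂ (V ⧸ W))) ℂ,
        eval (fun i => φ i z) (aeval l Q) = eval (fun j => ψ j (W.mkQ z)) Q := by
      intro Q
      induction Q using MvPolynomial.induction_on with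
      | C a => simp
      | add p q hp hq => rw [map_add, map_add, hp, hq, map_add]
      | mul_X p i hp => rw [map_mul, map_mul, hp, map_mul, aeval_X, eval_X, hlx]
    exact h7 _
  · rw [map_prod]
    simp

end Pool.Agent.H8.UGC
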