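import Pool.Agent.H8.UGC.Geo

/-!
# Block C: the statements of the modules
-/

set_option autoImplicit false

open MvPolynomial

namespace Pool.Agent.H8.UGC

open Pool.Agent.H47.KB

/-- C2, (Z5): normalisation of a closed cone `Z` which meets `W` in zero -/
def NormalS : Prop := ∀ (V : Type) [AddCommGroup V] [Module ℂ V] [Module.Finite ℂ V] (Z : Set V),
  ZC Z → (∀ c : ℂ, ∀ z ∈ Z, c • z ∈ Z) → ∀ W : Submodule ℂ V, (∀ w ∈ W, w ∈ Z → w = 0) →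
    ∃ (M : ℕ) (e : Fin M → V → ℂ), ∀ D, ∀ f ∈ PD V D,
      ∃ b : Fin M → (V ⧸ W) → ℂ, (∀ i, b i ∈ PD (V ⧸ W) D) ∧
        ∀ z ∈ Z, f z = ∑ i, b i (W.mkQ z) * e i z

/-- C3, (Z3) -/
def FibS : Prop := ∀ (V : Type) [AddCommGroup V] [Module ℂ V] [Module.Finite ℂ V] (Z : Set V),
  ZC Z → (∀ c : ℂ, ∀ z ∈ Z, c • z ∈ Z) → ∀ W : Submodule ℂ V, (∀ w ∈ W, w ∈ Z → w = 0) →
    ∀ u : V, {w : V | w ∈ W ∧ u + w ∈ Z}.Finite

/-- C4a: upper bound of the space of polynomial functions of degree at most `D` -/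
def SpanS : Prop := ∀ (A : Type) [AddCommGroup A] [Module ℂ A] [Module.Finite ℂ A] (D : ℕ),
  ∃ g : Fin ((D + 1) ^ Module.finrank ℂ A) → (A → ℂ), PD A D ≤ Submodule.span ℂ (Set.range g)

/-- C4a: many independent polynomial functions -/
def BoxS : Prop := ∀ (S : Type) [AddCommGroup S] [Module ℂ S] [Module.Finite ℂ S] (s : ℕ),
  ∃ g : Fin ((s + 1) ^ Module.finrank ℂ S) → (S → ℂ),
    (∀ i, g i ∈ PD S (Module.finrank ℂ S * s)) ∧ LinearIndependent ℂ g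

/-- C4a: polynomial functions on a product -/
def ProdS : Prop := ∀ (A V : Type) [AddCommGroup A] [Module ℂ A] [AddCommGroup V] [Module ℂ V]
  (D : ℕ), PD (A × V) D ≤
    Submodule.span ℂ {f | ∃ g ∈ PD A D, ∃ h ∈ PD V D, f = fun x => g x.1 * h x.2}

/-- C4, (Z4) -/
def CountS : Prop := ∀ (A S V : Type) [AddCommGroup A] [Module ℂ A] [Module.Finite ℂ A]
  [AddCommGroup S] [Module ℂ S] [Module.Finite ℂ S] [AddCommGroup V] [Module ℂ V]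
  [Module.Finite ℂ V] (Z : Set V), ZC Z → (∀ c : ℂ, ∀ z ∈ Z, c • z ∈ Z) →
  ∀ W : Submodule ℂ V, (∀ w ∈ W, w ∈ Z → w = 0) → ∀ T : A × V → S, PolyMap T →
    Module.finrank ℂ A + Module.finrank ℂ (V ⧸ W) < Module.finrank ℂ S →
    ∃ f : S → ℂ, IsPoly f ∧ (∃ s, f s ≠ 0) ∧ ∀ a, ∀ z ∈ Z, f (T (a, z)) = 0

/-- C5: the step lemma -/
def StepS : Prop := ∀ (L S V V' : Type) [AddCommGroup L] [Module ℂ L] [AddCommGroup S] [Module ℂ S]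
  [AddCommGroup V] [Module ℂ V] [Module.Finite ℂ V] [AddCommGroup V'] [Module ℂ V']
  [Module.Finite ℂ V'] (m : L →ₗ[ℂ] S →ₗ[ℂ] V) (π : L → V →ₗ[ℂ] V'),
  (∀ l, l ≠ 0 → LinearMap.ker (π l) = LinearMap.range (m l)) →
  (∃ (N : ℕ) (l : Fin N → L), (∀ i, l i ≠ 0) ∧ ⨆ i, LinearMap.range (m (l i)) = ⊤) →
  ∀ (Z : Set V) (Z' : Set V'), ZC Z → (∀ c : ℂ, ∀ z ∈ Z, c • z ∈ Z) →
  (∀ c : ℂ, ∀ z ∈ Z', c • z ∈ Z') → (0 : V') ∈ Z' →
  (∀ l, l ≠ 0 → ∀ v, π l v ∈ Z' → v ∈ Z) →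
  ∀ W : Submodule ℂ V, W ≠ ⊥ → (∀ w ∈ W, w ∈ Z → w = 0) →
  ∃ W' : Submodule ℂ V', Module.finrank ℂ W' = Module.finrank ℂ W + 1 ∧ ∀ w ∈ W', w ∈ Z' → w = 0

/-- C6a: restriction to the hyperplane `lf l = 0` -/
def PiS : Prop := ∀ (r e : ℕ) (l : Fin (r + 2) → ℂ), l ≠ 0 →
  ∃ (π : Vd (r + 1) (e + 1) →ₗ[ℂ] Vd r (e + 1)) (φ : Vec r →ₗ[ℂ] Vec (r + 1)),
    Function.Injective φ ∧ φ (e0 r) = e0 (r + 1) ∧
    (∀ (F : Vd (r + 1) (e + 1)) (x : Vec r), eval x (π F).1 = eval (φ x) F.1) ∧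
    Function.Surjective π ∧ LinearMap.ker π = LinearMap.range (mm r e l)

/-- C6b -/
def SpnS : Prop := ∀ r e : ℕ, ⨆ i : Fin (r + 2), LinearMap.range (mm r e (Pi.single i 1)) = ⊤

/-- C6c: Brody curves under injective linear maps -/
def MapS : Prop := ∀ (n m : ℕ) (φ : Vec n →ₗ[ℂ] Vec m), Function.Injective φ →
  ∀ (F : Frm m) (G : Frm n), (∀ x, eval x G = eval (φ x) F) → ∀ f : ℂ → Vec n, BrodyC G f →
    ¬ IsConst f → BrodyC F (fun z => φ (f z)) ∧ ¬ IsConst (fun z => φ (f z))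

/-- C6c: change of the representatives -/
def ResS : Prop := ∀ (n d : ℕ) (F : Frm n), F.IsHomogeneous d → ∀ f : ℂ → Vec n, BrodyC F f →
  ¬ IsConst f → ∀ c : ℂ → ℂ, (∀ z, c z ≠ 0) →
    BrodyC F (fun z => c z • f z) ∧ ¬ IsConst (fun z => c z • f z)

/-- C6d -/
def ZeroS : Prop := ∀ r d : ℕ, (0 : Vd r d) ∈ Bad r d

/-- C6d -/
def ConeS : Prop := ∀ r d : ℕ, ∀ c : ℂ, ∀ F ∈ Bad r d, c • F ∈ Bad r d

/-- C7 -/
def StartS : Prop := ∀ D d : ℕ, 1 ≤ d → GGLC D d →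
  ∃ W : Submodule ℂ (Vd D d), Module.finrank ℂ W = 1 ∧ ∀ w ∈ W, w ∈ cl (Bad D d) → w = 0

/-- C8a: polynomial functions on forms are polynomials in the coefficients -/
def CofS : Prop := ∀ (n d : ℕ) (f : Sd n d → ℂ), IsPoly f → ∃ P : Cof n, ∀ F : Sd n d, f F = val P F.1

/-- C8b -/
def DimS : Prop := ∀ n d : ℕ, 1 ≤ d → Module.finrank ℂ (Vd n d) + 1 = Module.finrank ℂ (Sd n d)

/-- C8b: for every coordinate `i` there is a polynomial family of linear substitutions which move `e0`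
to the points `x` with `x_i = 1` -/
def TraS : Prop := ∀ (n d : ℕ) (i : Fin (n + 2)),
  ∃ T : (Fin (n + 1) → ℂ) × Vd n d → Sd n d, PolyMap T ∧
    ∀ x : Vec n, x i = 1 → ∃ (a : Fin (n + 1) → ℂ) (φ : Vec n →ₗ[ℂ] Vec n), Function.Injective φ ∧
      φ x = e0 n ∧ ∀ F : Sd n d, eval x F.1 = 0 → ∃ G : Vd n d, T (a, G) = F ∧
        ∀ y, eval y F.1 = eval (φ y) G.1

/-- C8c -/
def FinishS : Prop := ∀ n d : ℕ, 1 ≤ d → ∀ W : Submodule ℂ (Vd n d), n + 1 ≤ Module.finrank ℂ W →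
  (∀ w ∈ W, w ∈ cl (Bad n d) → w = 0) → Hyp n d

/-- C9: the target of block C -/
def BlockC : Prop := ∀ n d : ℕ, 1 ≤ d → GGLC (2 * n) d → Hyp n d

end Pool.Agent.H8.UGC
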