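import Pool.Agent.H8.UGC.Stm

/-!
# Block C: substitutions which move `e0` to a point of the hyperplane `x_last = 0`
-/

set_option autoImplicit false

open MvPolynomial

namespace Pool.Agent.H8.UGC

open Pool.Agent.H47.KB

/-! ## products of polynomial functions -/

section

variable {V : Type} [AddCommGroup V] [Module ℂ V]

private theorem tr2_pow_mem {a : ℕ} {f : V → ℂ} (hf : f ∈ PD V a) (k : ℕ) : f ^ k ∈ PD V (a * k) := by
  induction k with
  | zero =>
    rw [pow_zero, mul_zero]
    exact const_mem_PD 1 0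
  | succ k ih =>
    rw [pow_succ, Nat.mul_succ]
    exact mul_mem_PD ih hf

private theorem tr2_prod_mem {ι : Type} (s : Finset ι) (f : ι → V → ℂ) (k : ι → ℕ)
    (hf : ∀ i ∈ s, f i ∈ PD V (k i)) : ∏ i ∈ s, f i ∈ PD V (∑ i ∈ s, k i) := by
  classical
  induction s using Finset.induction_on with
  | empty =>
    rw [Finset.prod_empty, Finset.sum_empty]
    exact const_mem_PD 1 0
  | insert a s ha ih =>
    rw [Finset.prod_insert ha, Finset.sum_insert ha]
    exact mul_mem_PD (hf a (Finset.mem_insert_self _ _))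
      (ih fun i hi => hf i (Finset.mem_insert_of_mem hi))

end

/-- polynomial maps to spaces of forms are recognised by the values of the forms -/
theorem polyMap_of_eval {V : Type} [AddCommGroup V] [Module ℂ V] {n d : ℕ} (T : V → Sd n d) (D : ℕ)
    (h : ∀ y : Vec n, (fun v => eval y (T v).1) ∈ PD V D) : PolyMap T := by
  let ev : Vec n → Sd n d →ₗ[ℂ] ℂ := fun y =>
    ((aeval (R := ℂ) y).toLinearMap : Frm n →ₗ[ℂ] ℂ).domRestrict (Sd n d)
  have hspan : Submodule.span ℂ (Set.range ev) = ⊤ := by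
    refine Submodule.span_eq_top_of_ne_zero fun F hF => ?_
    by_contra hcon
    push Not at hcon
    refine hF (Subtype.ext ?_)
    refine MvPolynomial.funext fun y => ?_
    show eval y F.1 = eval y (0 : Frm n)
    rw [map_zero]
    exact hcon _ ⟨y, rfl⟩
  refine ⟨D, fun l => ?_⟩
  have hl : l ∈ Submodule.span ℂ (Set.range ev) := by
    rw [hspan]
    trivial
  induction hl using Submodule.span_induction with
  | mem l h' =>
    obtain ⟨y, rfl⟩ := h'
    exact h y
  | zero => exact Submodule.zero_mem _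
  | add l l' _ _ h h' => exact Submodule.add_mem _ h h'
  | smul c l _ h => exact Submodule.smul_mem _ c h

/-- values of forms of degree `d` in terms of the coefficients -/
theorem eval_eq_sum_mon {n d : ℕ} {G : Frm n} (hG : G.IsHomogeneous d) (z : Vec n) :
    eval z G = ∑ σ ∈ Finset.finsuppAntidiag (Finset.univ : Finset (Fin (n + 2))) d,
      G.coeff σ * ∏ j, z j ^ σ j := by
  rw [eval_eq']
  refine Finset.sum_subset (fun σ hσ => ?_) fun σ _ hσ => ?_
  · rw [Finset.mem_finsuppAntidiag]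
    refine ⟨?_, Finset.subset_univ _⟩
    have h1 := hG (mem_support_iff.1 hσ)
    rw [← h1, Finsupp.weight_apply, Finsupp.sum_fintype _ _ (fun _ => by simp)]
    simp
  · rw [notMem_support_iff.1 hσ, zero_mul]

/-- substitution of points which depend linearly on the parameters -/
theorem subst_mem {V : Type} [AddCommGroup V] [Module ℂ V] {n d : ℕ} (c : V → Frm n)
    (hc : ∀ v, (c v).IsHomogeneous d) (hcl : ∀ σ, (fun v => (c v).coeff σ) ∈ PD V 1)
    (z : V → Vec n) (hz : ∀ j, (fun v => z v j) ∈ PD V 1) :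
    (fun v => eval (z v) (c v)) ∈ PD V (1 + d) := by
  have h1 : (fun v => eval (z v) (c v)) =
      ∑ σ ∈ Finset.finsuppAntidiag (Finset.univ : Finset (Fin (n + 2))) d,
        (fun v => (c v).coeff σ) * ∏ j, (fun v => z v j) ^ σ j := by
    funext v
    rw [eval_eq_sum_mon (hc v), Finset.sum_apply]
    refine Finset.sum_congr rfl fun σ _ => ?_
    rw [Pi.mul_apply, Finset.prod_apply]
    rfl
  rw [h1]
  refine Submodule.sum_mem _ fun σ hσ => mul_mem_PD (hcl σ) ?_
  rw [Finset.mem_finsuppAntidiag] at hσ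
  have h2 : ∑ j : Fin (n + 2), 1 * σ j = d := by
    rw [← hσ.1]
    simp
  have h3 := tr2_prod_mem (V := V) Finset.univ
    (fun j => (fun v => z v j) ^ σ j)
    (fun j => 1 * σ j) fun j _ => tr2_pow_mem (hz j) _
  rw [h2] at h3
  exact h3

/-! ## the substitutions -/

/-- substitution of a linear map in a form -/
noncomputable def sb2 {n : ℕ} (B : Vec n →ₗ[ℂ] Vec n) : Frm n →ₐ[ℂ] Frm n :=
  aeval fun i => ∑ j, C (B (Pi.single j 1) i) * X j

theorem sb2_eval {n : ℕ} (B : Vec n →ₗ[ℂ] Vec n) (F : Frm n) (x : Vec n) :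
    eval x (sb2 B F) = eval (B x) F := by
  have hx : ∀ i, eval x (∑ j, C (B (Pi.single j 1) i) * X j : Frm n) = B x i := by
    intro i
    have h1 : B x = ∑ j, x j • B (Pi.single j 1) := by
      conv_lhs => rw [pi_eq_sum_univ' x]
      rw [map_sum]
      exact Finset.sum_congr rfl fun j _ => by rw [map_smul]
    rw [map_sum, h1, Finset.sum_apply]
    exact Finset.sum_congr rfl fun j _ => by
      rw [map_mul, eval_C, eval_X, Pi.smul_apply, smul_eq_mul, mul_comm]
  induction F using MvPolynomial.induction_on with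
  | C a => rw [sb2, algHom_C, eval_C]; exact eval_C a
  | add P Q hP hQ => rw [map_add, map_add, hP, hQ, map_add]
  | mul_X P i hP => rw [map_mul, map_mul, hP, map_mul, sb2, aeval_X, hx, eval_X]

theorem sb2_hom {n d : ℕ} (B : Vec n →ₗ[ℂ] Vec n) {F : Frm n} (hF : F.IsHomogeneous d) :
    (sb2 B F).IsHomogeneous d := by
  have h1 := hF.aeval (fun i => (∑ j, C (B (Pi.single j 1) i) * X j : Frm n)) (n := 1) (fun i =>
    IsHomogeneous.sum _ _ _ fun j _ => by
      have := (isHomogeneous_C (Fin (n + 2)) (B (Pi.single j 1) i)).mul (isHomogeneous_X ℂ j)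
      rwa [zero_add] at this)
  rw [one_mul] at h1
  exact h1

section

variable {n : ℕ} (i : Fin (n + 2))

/-- the exchange of `0` and `i` -/
def sw2 : Equiv.Perm (Fin (n + 2)) := Equiv.swap 0 i

theorem sw2_sw2 (k : Fin (n + 2)) : sw2 i (sw2 i k) = k := Equiv.swap_apply_self _ _ _

theorem sw2_zero : sw2 i 0 = i := Equiv.swap_apply_left _ _

theorem sw2_i : sw2 i i = 0 := Equiv.swap_apply_right _ _

/-- the linear map `y ↦ y_0 p + ∑_(k ≠ 0) y_k e_(swap k)` -/
def mv2 (p : Vec n) : Vec n →ₗ[ℂ] Vec n where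
  toFun y := fun k => if k = i then p i * y 0 else y (sw2 i k) + p k * y 0
  map_add' y z := by
    funext k
    by_cases h : k = i
    · simp only [if_pos h, Pi.add_apply]
      ring
    · simp only [if_neg h, Pi.add_apply]
      ring
  map_smul' c y := by
    funext k
    by_cases h : k = i
    · simp only [if_pos h, Pi.smul_apply, smul_eq_mul, RingHom.id_apply]
      ring
    · simp only [if_neg h, Pi.smul_apply, smul_eq_mul, RingHom.id_apply]
      ring

theorem mv2_i (p y : Vec n) : mv2 i p y i = p i * y 0 := if_pos rfl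

theorem mv2_ne (p y : Vec n) {k : Fin (n + 2)} (h : k ≠ i) :
    mv2 i p y k = y (sw2 i k) + p k * y 0 := if_neg h

theorem mv2_e0 (p : Vec n) : mv2 i p (e0 n) = p := by
  funext k
  by_cases h : k = i
  · subst h
    rw [mv2_i, e0, Pi.single_eq_same, mul_one]
  · rw [mv2_ne i p _ h, e0, Pi.single_eq_same, mul_one]
    have h1 : sw2 i k ≠ 0 := fun h2 => h (by
      have := congrArg (sw2 i) h2
      rwa [sw2_sw2, sw2_zero] at this)
    rw [Pi.single_eq_of_ne h1, zero_add]

theorem mv2_inj (p : Vec n) (hp : p i ≠ 0) : Function.Injective (mv2 i p) := by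
  rw [← LinearMap.ker_eq_bot, LinearMap.ker_eq_bot']
  intro y hy
  have h0 : y 0 = 0 := by
    have := congrFun hy i
    rw [mv2_i] at this
    exact (mul_eq_zero.1 this).resolve_left hp
  funext k
  by_cases hk : k = 0
  · rw [hk]
    exact h0
  · have h1 : sw2 i k ≠ i := fun h2 => hk (by
      have := congrArg (sw2 i) h2
      rwa [sw2_sw2, sw2_i] at this)
    have := congrFun hy (sw2 i k)
    rw [mv2_ne i p _ h1, sw2_sw2, h0, mul_zero, add_zero] at this
    exact this

theorem mv2_mem (y : Vec n) (k : Fin (n + 2)) :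
    (fun p : Vec n => mv2 i p y k) ∈ PD (Vec n) 1 := by
  by_cases h : k = i
  · subst h
    have h1 : (fun p : Vec n => mv2 k p y k) = y 0 • fun p : Vec n => p k := by
      funext p
      rw [mv2_i, Pi.smul_apply, smul_eq_mul, mul_comm]
    rw [h1]
    have h2 : (fun p : Vec n => p k) ∈ PD (Vec n) 1 :=
      lin_mem_PD (LinearMap.proj k : Vec n →ₗ[ℂ] ℂ) le_rfl
    exact Submodule.smul_mem _ _ h2
  · have h1 : (fun p : Vec n => mv2 i p y k) = (fun _ => y (sw2 i k)) + y 0 • fun p : Vec n => p k := by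
      funext p
      rw [mv2_ne i p _ h, Pi.add_apply, Pi.smul_apply, smul_eq_mul, mul_comm (y 0)]
    rw [h1]
    have h2 : (fun p : Vec n => p k) ∈ PD (Vec n) 1 :=
      lin_mem_PD (LinearMap.proj k : Vec n →ₗ[ℂ] ℂ) le_rfl
    exact Submodule.add_mem _ (const_mem_PD _ _) (Submodule.smul_mem _ _ h2)

/-- the parameters -/
abbrev Par (i : Fin (n + 2)) : Type := {k : Fin (n + 2) // k ≠ i ∧ k ≠ Fin.last (n + 1)} → ℂ

theorem finrank_par (hi : i ≠ Fin.last (n + 1)) : Module.finrank ℂ (Par i) = n := by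
  classical
  rw [Module.finrank_pi, Fintype.card_subtype]
  have h1 : (Finset.univ.filter fun k : Fin (n + 2) => k ≠ i ∧ k ≠ Fin.last (n + 1)) =
      (Finset.univ.erase i).erase (Fin.last (n + 1)) := by
    ext k
    simp [and_comm]
  rw [h1, Finset.card_erase_of_mem, Finset.card_erase_of_mem (Finset.mem_univ _), Finset.card_univ,
    Fintype.card_fin]
  · rfl
  · rw [Finset.mem_erase]
    exact ⟨fun h => hi h.symm, Finset.mem_univ _⟩

/-- the translation vector -/
def wv2 (a : Par i) : Vec n := fun k => if h : k ≠ i ∧ k ≠ Fin.last (n + 1) then a ⟨k, h⟩ else 0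

theorem wv2_i (a : Par i) : wv2 i a i = 0 := dif_neg fun h => h.1 rfl

theorem wv2_last (a : Par i) : wv2 i a (Fin.last (n + 1)) = 0 := dif_neg fun h => h.2 rfl

/-- the linear map `y ↦ swap (y - y_i w)` -/
def ph2 (a : Par i) : Vec n →ₗ[ℂ] Vec n where
  toFun y := fun j => y (sw2 i j) - wv2 i a (sw2 i j) * y i
  map_add' y z := by
    funext j
    simp only [Pi.add_apply]
    ring
  map_smul' c y := by
    funext j
    simp only [Pi.smul_apply, smul_eq_mul, RingHom.id_apply]
    ring

theorem ph2_apply (a : Par i) (y : Vec n) (j : Fin (n + 2)) :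
    ph2 i a y j = y (sw2 i j) - wv2 i a (sw2 i j) * y i := rfl

/-- the inverse substitution, for points `p` with `p_i = 1`, `p_last = 0` -/
theorem mv2_ph2 (hi : i ≠ Fin.last (n + 1)) (p : Vec n) (hp : p i = 1)
    (hl : p (Fin.last (n + 1)) = 0) (y : Vec n) :
    mv2 i p (ph2 i (fun k => p k.1) y) = y := by
  have hw : ∀ k, k ≠ i → wv2 i (fun k : {k : Fin (n + 2) // k ≠ i ∧ k ≠ Fin.last (n + 1)} => p k.1) k =
      p k := by
    intro k hk
    by_cases h : k = Fin.last (n + 1)
    · subst h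
      rw [wv2_last, hl]
    · exact dif_pos ⟨hk, h⟩
  have h0 : ph2 i (fun k => p k.1) y 0 = y i := by
    rw [ph2_apply, sw2_zero, wv2_i, zero_mul, sub_zero]
  funext k
  by_cases hk : k = i
  · subst hk
    rw [mv2_i, hp, one_mul, h0]
  · rw [mv2_ne i p _ hk, h0, ph2_apply, sw2_sw2, hw k hk]
    ring

/-- the family of substitutions -/
noncomputable def tt2 {d : ℕ} (v : Par i × Vd n d) : Sd n d :=
  ⟨sb2 (ph2 i v.1) v.2.1, (mem_homogeneousSubmodule _ _).2 (sb2_hom _ (mem_Vd.1 v.2.2).1)⟩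

theorem eval_tt2 {d : ℕ} (v : Par i × Vd n d) (y : Vec n) :
    eval y (tt2 i v).1 = eval (ph2 i v.1 y) v.2.1 := sb2_eval _ _ _

theorem wv2_mem {W : Type} [AddCommGroup W] [Module ℂ W] (k : Fin (n + 2)) :
    (fun v : Par i × W => wv2 i v.1 k) ∈ PD (Par i × W) 1 := by
  by_cases h : k ≠ i ∧ k ≠ Fin.last (n + 1)
  · have h1 : (fun v : Par i × W => wv2 i v.1 k) =
        ⇑((LinearMap.proj (⟨k, h⟩ : {k : Fin (n + 2) // k ≠ i ∧ k ≠ Fin.last (n + 1)})).comp
          (LinearMap.fst ℂ (Par i) W)) := by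
      funext v
      exact dif_pos h
    rw [h1]
    exact lin_mem_PD _ le_rfl
  · have h1 : (fun v : Par i × W => wv2 i v.1 k) = fun _ => 0 := by
      funext v
      exact dif_neg h
    rw [h1]
    exact const_mem_PD 0 1

theorem tt2_poly {d : ℕ} : PolyMap (tt2 i : Par i × Vd n d → Sd n d) := by
  have h2 : ∀ σ : Fin (n + 2) →₀ ℕ, (fun v : Par i × Vd n d => v.2.1.coeff σ) ∈
      PD (Par i × Vd n d) 1 := fun σ =>
    lin_mem_PD (((lcoeff ℂ σ).comp (Vd n d).subtype).comp (LinearMap.snd ℂ (Par i) (Vd n d))) le_rfl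
  have h3 : ∀ (y : Vec n) (j : Fin (n + 2)), (fun v : Par i × Vd n d => ph2 i v.1 y j) ∈
      PD (Par i × Vd n d) 1 := by
    intro y j
    have h2 : (fun v : Par i × Vd n d => ph2 i v.1 y j) =
        (fun _ => y (sw2 i j)) - y i • fun v : Par i × Vd n d => wv2 i v.1 (sw2 i j) := by
      funext v
      rw [ph2_apply, Pi.sub_apply, Pi.smul_apply, smul_eq_mul, mul_comm (y i)]
    rw [h2]
    exact Submodule.sub_mem _ (const_mem_PD _ _) (Submodule.smul_mem _ _ (wv2_mem i _))
  have h4 : ∀ y : Vec n, (fun v : Par i × Vd n d => eval y (tt2 i v).1) ∈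
      PD (Par i × Vd n d) (1 + d) := by
    intro y
    have h1 : (fun v : Par i × Vd n d => eval y (tt2 i v).1) =
        fun v : Par i × Vd n d => eval (ph2 i v.1 y) v.2.1 := by
      funext v
      rw [eval_tt2]
    rw [h1]
    exact subst_mem (V := Par i × Vd n d) (n := n) (d := d) (fun v => v.2.1)
      (fun v => (mem_Vd.1 v.2.2).1) h2 (fun v => ph2 i v.1 y) (h3 y)
  exact polyMap_of_eval (V := Par i × Vd n d) (n := n) (d := d) (fun v => tt2 i v) (1 + d) h4

end

/-- `F` moved so that `p` becomes `e0`, as a point of `Vd` -/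
noncomputable def gg2 {n d : ℕ} (i : Fin (n + 2)) (F : Sd n d) (p : Vec n) (hp : eval p F.1 = 0) :
    Vd n d :=
  ⟨sb2 (mv2 i p) F.1, mem_Vd.2 ⟨sb2_hom _ ((mem_homogeneousSubmodule _ _).1 F.2), by
    rw [sb2_eval, mv2_e0]
    exact hp⟩⟩

theorem tt2_gg2 {n d : ℕ} (i : Fin (n + 2)) (hi : i ≠ Fin.last (n + 1)) (F : Sd n d) (p : Vec n)
    (hp : eval p F.1 = 0) (h1 : p i = 1) (hl : p (Fin.last (n + 1)) = 0) :
    tt2 i (fun k => p k.1, gg2 i F p hp) = F := by
  apply Subtype.ext
  apply MvPolynomial.funext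
  intro y
  rw [eval_tt2]
  change eval (ph2 i (fun k => p k.1) y) (sb2 (mv2 i p) F.1) = _
  rw [sb2_eval, mv2_ph2 i hi p h1 hl]

end Pool.Agent.H8.UGC
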