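import Mathlib

/-!
# Block C, module C1: polynomial functions and Zariski closed sets in a complex vector space
-/

set_option autoImplicit false

namespace Pool.Agent.H8.UGC

section

variable (V : Type) [AddCommGroup V] [Module ℂ V]

/-- functions of degree at most one -/
def P1 : Submodule ℂ (V → ℂ) :=
  Submodule.span ℂ (insert 1 (Set.range fun l : V →ₗ[ℂ] ℂ => (⇑l : V → ℂ)))

/-- polynomial functions of degree at most `D` -/
def PD (D : ℕ) : Submodule ℂ (V → ℂ) := P1 V ^ D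

end

section

variable {V S : Type} [AddCommGroup V] [Module ℂ V] [AddCommGroup S] [Module ℂ S]

/-- polynomial functions -/
def IsPoly (f : V → ℂ) : Prop := ∃ D, f ∈ PD V D

/-- polynomial maps of degree at most `D` -/
def PolyMapD (T : V → S) (D : ℕ) : Prop := ∀ l : S →ₗ[ℂ] ℂ, (fun v => l (T v)) ∈ PD V D

/-- polynomial maps -/
def PolyMap (T : V → S) : Prop := ∃ D, PolyMapD T D

/-- Zariski closure -/
def cl (B : Set V) : Set V := {v | ∀ f : V → ℂ, IsPoly f → (∀ b ∈ B, f b = 0) → f v = 0}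

/-- Zariski closed sets -/
def ZC (Z : Set V) : Prop := cl Z ⊆ Z

theorem one_mem_P1 : (1 : V → ℂ) ∈ P1 V := Submodule.subset_span (Set.mem_insert _ _)

theorem lin_mem_P1 (l : V →ₗ[ℂ] ℂ) : (⇑l : V → ℂ) ∈ P1 V :=
  Submodule.subset_span (Set.mem_insert_of_mem _ ⟨l, rfl⟩)

theorem PD_zero : PD V 0 = 1 := pow_zero _

theorem PD_one : PD V 1 = P1 V := pow_one _

theorem PD_mono {a b : ℕ} (h : a ≤ b) : PD V a ≤ PD V b := by
  have h1 : (1 : Submodule ℂ (V → ℂ)) ≤ P1 V := Submodule.one_le.2 one_mem_P1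
  exact pow_right_mono₀ h1 h

theorem mul_mem_PD {a b : ℕ} {f g : V → ℂ} (hf : f ∈ PD V a) (hg : g ∈ PD V b) :
    f * g ∈ PD V (a + b) := by
  unfold PD
  rw [pow_add]
  exact Submodule.mul_mem_mul hf hg

theorem const_mem_PD (c : ℂ) (D : ℕ) : (fun _ : V => c) ∈ PD V D := by
  have h1 : (fun _ : V => c) ∈ PD V 0 := by
    rw [PD_zero, Submodule.mem_one]
    exact ⟨c, rfl⟩
  exact PD_mono (Nat.zero_le D) h1

theorem lin_mem_PD (l : V →ₗ[ℂ] ℂ) {D : ℕ} (hD : 1 ≤ D) : (⇑l : V → ℂ) ∈ PD V D :=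
  PD_mono hD (by rw [PD_one]; exact lin_mem_P1 l)

theorem IsPoly.const (c : ℂ) : IsPoly (fun _ : V => c) := ⟨0, const_mem_PD c 0⟩

theorem IsPoly.lin (l : V →ₗ[ℂ] ℂ) : IsPoly (⇑l : V → ℂ) := ⟨1, lin_mem_PD l le_rfl⟩

theorem IsPoly.add {f g : V → ℂ} (hf : IsPoly f) (hg : IsPoly g) : IsPoly (f + g) := by
  obtain ⟨a, ha⟩ := hf
  obtain ⟨b, hb⟩ := hg
  exact ⟨max a b, Submodule.add_mem _ (PD_mono (le_max_left _ _) ha) (PD_mono (le_max_right _ _) hb)⟩

theorem IsPoly.mul {f g : V → ℂ} (hf : IsPoly f) (hg : IsPoly g) : IsPoly (f * g) := by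
  obtain ⟨a, ha⟩ := hf
  obtain ⟨b, hb⟩ := hg
  exact ⟨a + b, mul_mem_PD ha hb⟩

theorem IsPoly.smul {f : V → ℂ} (c : ℂ) (hf : IsPoly f) : IsPoly (c • f) := by
  obtain ⟨a, ha⟩ := hf
  exact ⟨a, Submodule.smul_mem _ _ ha⟩

theorem IsPoly.sub {f g : V → ℂ} (hf : IsPoly f) (hg : IsPoly g) : IsPoly (f - g) := by
  have h := hf.add (hg.smul (-1))
  rwa [neg_one_smul, ← sub_eq_add_neg] at h

theorem IsPoly.sum {ι : Type} (s : Finset ι) {f : ι → V → ℂ} (hf : ∀ i ∈ s, IsPoly (f i)) :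
    IsPoly (∑ i ∈ s, f i) := by
  classical
  induction s using Finset.induction_on with
  | empty => rw [Finset.sum_empty]; exact IsPoly.const 0
  | insert a s ha ih =>
    rw [Finset.sum_insert ha]
    exact (hf a (Finset.mem_insert_self _ _)).add
      (ih fun i hi => hf i (Finset.mem_insert_of_mem hi))

theorem IsPoly.prod {ι : Type} (s : Finset ι) {f : ι → V → ℂ} (hf : ∀ i ∈ s, IsPoly (f i)) :
    IsPoly (∏ i ∈ s, f i) := by
  classical
  induction s using Finset.induction_on with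
  | empty => rw [Finset.prod_empty]; exact IsPoly.const 1
  | insert a s ha ih =>
    rw [Finset.prod_insert ha]
    exact (hf a (Finset.mem_insert_self _ _)).mul
      (ih fun i hi => hf i (Finset.mem_insert_of_mem hi))

theorem IsPoly.pow {f : V → ℂ} (hf : IsPoly f) (n : ℕ) : IsPoly (f ^ n) := by
  induction n with
  | zero => rw [pow_zero]; exact IsPoly.const 1
  | succ n ih => rw [pow_succ]; exact ih.mul hf

/-- composition with a map `T` such that the pull backs of linear forms have degree `≤ D` -/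
theorem comp_mem_PD {T : V → S} {D : ℕ} (hT : PolyMapD T D) {s : ℕ} {f : S → ℂ}
    (hf : f ∈ PD S s) : (fun v => f (T v)) ∈ PD V (D * s) := by
  let φ : (S → ℂ) →ₐ[ℂ] (V → ℂ) :=
    { toFun := fun f v => f (T v)
      map_one' := rfl
      map_mul' := fun _ _ => rfl
      map_zero' := rfl
      map_add' := fun _ _ => rfl
      commutes' := fun _ => rfl }
  have h1 : (P1 S).map φ.toLinearMap ≤ PD V D := by
    unfold P1
    rw [Submodule.map_span_le]
    rintro g (rfl | ⟨l, rfl⟩)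
    · exact const_mem_PD 1 D
    · exact hT l
  have h2 : (P1 S ^ s).map φ.toLinearMap ≤ PD V (D * s) := by
    have h3 : (P1 S ^ s).map φ.toLinearMap = ((P1 S).map φ.toLinearMap) ^ s :=
      Submodule.map_pow (P1 S) φ s
    rw [h3]
    unfold PD
    rw [pow_mul]
    exact pow_le_pow_left' h1 s
  exact h2 ⟨f, hf, rfl⟩

theorem IsPoly.comp {T : V → S} (hT : PolyMap T) {f : S → ℂ} (hf : IsPoly f) :
    IsPoly (fun v => f (T v)) := by
  obtain ⟨D, hD⟩ := hT
  obtain ⟨s, hs⟩ := hf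
  exact ⟨D * s, comp_mem_PD hD hs⟩

/-- affine maps are polynomial -/
theorem polyMapD_affine (L : V →ₗ[ℂ] S) (u : S) : PolyMapD (fun v => u + L v) 1 := by
  intro l
  have h1 : (fun v => l (u + L v)) = (fun _ => l u) + (⇑(l.comp L) : V → ℂ) := by
    funext v
    simp
  rw [h1]
  exact Submodule.add_mem _ (const_mem_PD _ _) (lin_mem_PD _ le_rfl)

theorem polyMap_affine (L : V →ₗ[ℂ] S) (u : S) : PolyMap (fun v => u + L v) :=
  ⟨1, polyMapD_affine L u⟩

theorem polyMap_lin (L : V →ₗ[ℂ] S) : PolyMap (fun v => L v) := by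
  have h := polyMap_affine L 0
  simpa using h

/-! ## closure -/

theorem subset_cl (B : Set V) : B ⊆ cl B := fun b hb _ _ h => h b hb

theorem cl_mono {B B' : Set V} (h : B ⊆ B') : cl B ⊆ cl B' :=
  fun _ hv f hf h0 => hv f hf fun b hb => h0 b (h hb)

theorem ZC_cl (B : Set V) : ZC (cl B) :=
  fun _ hv f hf h0 => hv f hf fun _ hb => hb f hf h0

theorem cl_subset {B Z : Set V} (hZ : ZC Z) (h : B ⊆ Z) : cl B ⊆ Z := (cl_mono h).trans hZ

theorem ZC.preimage {T : V → S} (hT : PolyMap T) {Z : Set S} (hZ : ZC Z) : ZC (T ⁻¹' Z) := by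
  intro v hv
  apply hZ
  intro f hf h0
  exact hv (fun v => f (T v)) (hf.comp hT) fun b hb => h0 _ hb

theorem ZC.iInter {ι : Sort*} {Z : ι → Set V} (h : ∀ i, ZC (Z i)) : ZC (⋂ i, Z i) := by
  intro v hv
  rw [Set.mem_iInter]
  intro i
  exact h i (cl_mono (Set.iInter_subset Z i) hv)

theorem ZC.setOf_forall {ι : Sort*} {p : ι → V → Prop} (h : ∀ i, ZC {v | p i v}) :
    ZC {v | ∀ i, p i v} := by
  have h1 : {v | ∀ i, p i v} = ⋂ i, {v | p i v} := by
    ext v
    simp
  rw [h1]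
  exact ZC.iInter h

/-- a polynomial function restricted to a line -/
theorem exists_line {f : V → ℂ} (hf : IsPoly f) (a b : V) :
    ∃ p : Polynomial ℂ, ∀ t : ℂ, f (a + t • b) = p.eval t := by
  obtain ⟨D, hD⟩ := hf
  let A : Subalgebra ℂ (V → ℂ) :=
    { carrier := {f | ∃ p : Polynomial ℂ, ∀ t : ℂ, f (a + t • b) = p.eval t}
      mul_mem' := by
        rintro f g ⟨p, hp⟩ ⟨q, hq⟩
        exact ⟨p * q, fun t => by simp [hp, hq]⟩
      add_mem' := by
        rintro f g ⟨p, hp⟩ ⟨q, hq⟩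
        exact ⟨p + q, fun t => by simp [hp, hq]⟩
      algebraMap_mem' := fun r => ⟨Polynomial.C r, fun t => by simp⟩ }
  have h1 : P1 V ≤ Subalgebra.toSubmodule A := by
    unfold P1
    rw [Submodule.span_le]
    rintro g (rfl | ⟨l, rfl⟩)
    · exact A.one_mem
    · refine ⟨Polynomial.C (l a) + Polynomial.X * Polynomial.C (l b), fun t => ?_⟩
      change l (a + t • b) = _
      rw [map_add, map_smul, smul_eq_mul, Polynomial.eval_add, Polynomial.eval_mul,
        Polynomial.eval_C, Polynomial.eval_C, Polynomial.eval_X]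
  have h2 : ∀ D, PD V D ≤ Subalgebra.toSubmodule A := by
    intro D
    induction D with
    | zero =>
      rw [PD_zero, Submodule.one_le]
      exact A.one_mem
    | succ D ih =>
      unfold PD at ih ⊢
      rw [pow_succ, Submodule.mul_le]
      intro x hx y hy
      exact A.mul_mem (ih hx) (h1 hy)
  exact h2 D hD

theorem exists_ne_zero_two {f g : V → ℂ} (hf : IsPoly f) (hg : IsPoly g) {x y : V}
    (hx : f x ≠ 0) (hy : g y ≠ 0) : ∃ v, f v ≠ 0 ∧ g v ≠ 0 := by
  obtain ⟨p, hp⟩ := exists_line hf x (y - x)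
  obtain ⟨q, hq⟩ := exists_line hg x (y - x)
  have hp0 : p ≠ 0 := by
    intro h
    apply hx
    have h1 := hp 0
    rw [zero_smul, add_zero, h, Polynomial.eval_zero] at h1
    exact h1
  have hq0 : q ≠ 0 := by
    intro h
    apply hy
    have h1 := hq 1
    rw [one_smul, add_sub_cancel, h, Polynomial.eval_zero] at h1
    exact h1
  obtain ⟨t, ht⟩ : ∃ t, (p * q).eval t ≠ 0 := by
    by_contra hcon
    push Not at hcon
    exact mul_ne_zero hp0 hq0 (Polynomial.funext fun t => by rw [hcon t, Polynomial.eval_zero])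
  rw [Polynomial.eval_mul] at ht
  refine ⟨x + t • (y - x), ?_, ?_⟩
  · rw [hp]
    exact left_ne_zero_of_mul ht
  · rw [hq]
    exact right_ne_zero_of_mul ht

/-- (Z1) a vector space is not a finite union of proper closed sets -/
theorem cover {ι : Type} (s : Finset ι) (Z : ι → Set V) (hZ : ∀ i ∈ s, ZC (Z i))
    (hcov : ∀ v, ∃ i ∈ s, v ∈ Z i) : ∃ i ∈ s, ∀ v, v ∈ Z i := by
  classical
  by_contra hcon
  push Not at hcon
  have h1 : ∀ i ∈ s, ∃ f : V → ℂ, IsPoly f ∧ (∀ z ∈ Z i, f z = 0) ∧ ∃ v, f v ≠ 0 := by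
    intro i hi
    obtain ⟨v, hv⟩ := hcon i hi
    have h2 : v ∉ cl (Z i) := fun h => hv (hZ i hi h)
    have h3 : ¬ ∀ f : V → ℂ, IsPoly f → (∀ b ∈ Z i, f b = 0) → f v = 0 := h2
    push Not at h3
    obtain ⟨f, hf, h0, hfv⟩ := h3
    exact ⟨f, hf, h0, v, hfv⟩
  choose! f hf h0 hfv using h1
  have h2 : ∀ t : Finset ι, t ⊆ s → ∃ v, ∀ i ∈ t, f i v ≠ 0 := by
    intro t
    induction t using Finset.induction_on with
    | empty => exact fun _ => ⟨0, fun i hi => absurd hi (Finset.notMem_empty i)⟩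
    | insert a t ha ih =>
      intro hts
      obtain ⟨x, hx⟩ := ih fun i hi => hts (Finset.mem_insert_of_mem hi)
      obtain ⟨y, hy⟩ := hfv a (hts (Finset.mem_insert_self _ _))
      have hprod : IsPoly (∏ i ∈ t, f i) :=
        IsPoly.prod t fun i hi => hf i (hts (Finset.mem_insert_of_mem hi))
      have hx' : (∏ i ∈ t, f i) x ≠ 0 := by
        rw [Finset.prod_apply]
        exact Finset.prod_ne_zero_iff.2 hx
      obtain ⟨v, hv1, hv2⟩ :=
        exists_ne_zero_two hprod (hf a (hts (Finset.mem_insert_self _ _))) hx' hy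
      refine ⟨v, fun i hi => ?_⟩
      rw [Finset.prod_apply, Finset.prod_ne_zero_iff] at hv1
      rcases Finset.mem_insert.1 hi with rfl | hi
      · exact hv2
      · exact hv1 i hi
  obtain ⟨v, hv⟩ := h2 s (Finset.Subset.refl s)
  obtain ⟨i, hi, hvi⟩ := hcov v
  exact hv i hi (h0 i hi v hvi)

/-- (Z2) the closure of a cone is a cone -/
theorem cl_cone {B : Set V} (hB : ∀ c : ℂ, ∀ b ∈ B, c • b ∈ B) :
    ∀ c : ℂ, ∀ z ∈ cl B, c • z ∈ cl B := by
  intro c z hz
  have h1 : ZC ((fun v : V => c • v) ⁻¹' cl B) := by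
    refine ZC.preimage ?_ (ZC_cl B)
    exact polyMap_lin (c • (LinearMap.id : V →ₗ[ℂ] V))
  exact cl_subset h1 (fun b hb => subset_cl B (hB c b hb)) hz

/-- closures and linear surjections -/
theorem preimage_cl (π : V →ₗ[ℂ] S) (hπ : Function.Surjective π) {B : Set V} {B' : Set S}
    (h : ∀ v, π v ∈ B' → v ∈ B) : ∀ v, π v ∈ cl B' → v ∈ cl B := by
  intro v hv f hf h0
  obtain ⟨σ, hσ⟩ := LinearMap.exists_rightInverse_of_surjective π (LinearMap.range_eq_top.2 hπ)
  have hσ' : ∀ x, π (σ x) = x := fun x => congrArg (fun L : S →ₗ[ℂ] S => L x) hσ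
  have h1 := hv (fun x => f ((v - σ (π v)) + σ x)) (hf.comp (polyMap_affine σ (v - σ (π v)))) ?_
  · rwa [sub_add_cancel] at h1
  · intro b hb
    apply h0
    apply h
    rw [map_add, map_sub, hσ', hσ', sub_self, zero_add]
    exact hb

end

end Pool.Agent.H8.UGC
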